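import Mathlib

/-! Powers of functions with positive real part, and the kernels `|1 - v| ^ (-κ)`. -/

set_option autoImplicit false
open Complex Metric Set Filter Topology MeasureTheory

namespace Pool.Agent.Z55M

/-- powers of numbers with positive real part -/
theorem re_cpow_ge {u : ℂ} (hu : 0 < u.re) {t : ℝ} (h0 : 0 ≤ t) (h1 : t ≤ 1) :
    Real.cos (t * (Real.pi / 2)) * ‖u‖ ^ t ≤ (u ^ (t : ℂ)).re := by
  have hu0 : u ≠ 0 := by
    rintro rfl
    simp at hu
  have hn : 0 < ‖u‖ := norm_pos_iff.2 hu0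
  have e : (u ^ (t : ℂ)).re = ‖u‖ ^ t * Real.cos (t * u.arg) := by
    rw [Complex.cpow_def_of_ne_zero hu0, Complex.exp_re, Complex.re_mul_ofReal, Complex.im_mul_ofReal,
      Complex.log_re, Complex.log_im, Real.rpow_def_of_pos hn, mul_comm u.arg t]
  rw [e, mul_comm]
  apply mul_le_mul_of_nonneg_left _ (by positivity)
  have harg : |u.arg| ≤ Real.pi / 2 := (Complex.abs_arg_lt_pi_div_two_iff.2 (Or.inl hu)).le
  rw [← Real.cos_abs (t * u.arg), abs_mul, abs_of_nonneg h0]
  apply Real.cos_le_cos_of_nonneg_of_le_pi (by positivity)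
  · have := Real.pi_pos
    nlinarith
  · exact mul_le_mul_of_nonneg_left harg h0

theorem cos_pos' {t : ℝ} (h0 : 0 ≤ t) (h1 : t < 1) : 0 < Real.cos (t * (Real.pi / 2)) := by
  have := Real.pi_pos
  apply Real.cos_pos_of_mem_Ioo
  constructor <;> nlinarith

theorem sphere_sub {r : ℝ} (h1 : |r| < 1) : sphere (0 : ℂ) |r| ⊆ ball 0 1 := by
  intro v hv
  rw [mem_ball_zero_iff, mem_sphere_zero_iff_norm.1 hv]
  exact h1

theorem cint {E : Type*} [NormedAddCommGroup E] {F : ℂ → E} (hF : ContinuousOn F (ball 0 1)) {r : ℝ}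
    (h1 : |r| < 1) : CircleIntegrable F 0 r :=
  (hF.mono (sphere_sub h1)).circleIntegrable'

theorem av_re {F : ℂ → ℂ} {r : ℝ} (hF : CircleIntegrable F 0 r) :
    Real.circleAverage (fun v => (F v).re) 0 r = (Real.circleAverage F 0 r).re :=
  Complex.reCLM.circleAverage_comp_comm hF

theorem av_mean {F : ℂ → ℂ} (hF : DifferentiableOn ℂ F (ball 0 1)) {r : ℝ} (h1 : |r| < 1) :
    Real.circleAverage F 0 r = F 0 := by
  apply DiffContOnCl.circleAverage
  exact hF.diffContOnCl_ball (closedBall_subset_ball h1)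

/-- **means of powers of functions with positive real part** -/
theorem mean_pos {q : ℂ → ℂ} (hq : DifferentiableOn ℂ q (ball 0 1)) (hp : ∀ v ∈ ball (0 : ℂ) 1, 0 < (q v).re)
    {t : ℝ} (h0 : 0 ≤ t) (ht : t < 1) {r : ℝ} (h1 : |r| < 1) :
    Real.circleAverage (fun v => ‖q v‖ ^ t) 0 r ≤ ‖q 0‖ ^ t / Real.cos (t * (Real.pi / 2)) := by
  have hc := cos_pos' h0 ht
  have hne : ∀ v ∈ ball (0 : ℂ) 1, q v ∈ slitPlane := fun v hv => Or.inl (hp v hv)
  have hd : DifferentiableOn ℂ (fun v => q v ^ (t : ℂ)) (ball 0 1) := fun v hv =>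
    (hq v hv).cpow_const (hne v hv)
  rw [le_div_iff₀ hc, mul_comm]
  have h2 : Real.cos (t * (Real.pi / 2)) * Real.circleAverage (fun v => ‖q v‖ ^ t) 0 r =
      Real.circleAverage (fun v => Real.cos (t * (Real.pi / 2)) * ‖q v‖ ^ t) 0 r := by
    have := Real.circleAverage_fun_smul (a := Real.cos (t * (Real.pi / 2))) (f := fun v => ‖q v‖ ^ t) (c := 0) (R := r)
    simpa [smul_eq_mul] using this.symm
  rw [h2]
  have hcn : ContinuousOn (fun v => Real.cos (t * (Real.pi / 2)) * ‖q v‖ ^ t) (ball 0 1) := by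
    apply continuousOn_const.mul
    exact hq.continuousOn.norm.rpow_const fun v hv => Or.inr h0
  calc Real.circleAverage (fun v => Real.cos (t * (Real.pi / 2)) * ‖q v‖ ^ t) 0 r
      ≤ Real.circleAverage (fun v => (q v ^ (t : ℂ)).re) 0 r := by
        apply Real.circleAverage_mono (cint hcn h1) (cint (Complex.continuous_re.comp_continuousOn hd.continuousOn) h1)
        intro v hv
        exact re_cpow_ge (hp v (sphere_sub h1 hv)) h0 ht.le
    _ = (q 0 ^ (t : ℂ)).re := by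
        rw [av_re (cint hd.continuousOn h1), av_mean hd h1]
    _ ≤ ‖q 0 ^ (t : ℂ)‖ := Complex.re_le_norm _
    _ = ‖q 0‖ ^ t := by
        rw [Complex.norm_cpow_real]

theorem one_sub_re {v : ℂ} (hv : v ∈ ball (0 : ℂ) 1) : 0 < (1 - v).re := by
  have := (Complex.re_le_norm v).trans_lt (mem_ball_zero_iff.1 hv)
  simpa using this

/-- the kernels, `κ < 1` -/
theorem kern_lt {κ : ℝ} (h0 : 0 ≤ κ) (hκ : κ < 1) {r : ℝ} (h1 : |r| < 1) :
    Real.circleAverage (fun v : ℂ => ‖1 - v‖ ^ (-κ)) 0 r ≤ 1 / Real.cos (κ * (Real.pi / 2)) := by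
  have h2 := mean_pos (q := fun v => (1 - v)⁻¹) (t := κ) (r := r)
    (by
      intro v hv
      have : (1 : ℂ) - v ≠ 0 := fun h => by
        have := one_sub_re hv
        rw [h] at this
        simp at this
      fun_prop (disch := assumption))
    (by
      intro v hv
      have h3 := one_sub_re hv
      rw [Complex.inv_re]
      apply div_pos h3
      rw [Complex.normSq_pos]
      intro h
      rw [h] at h3
      simp at h3)
    h0 hκ h1
  simp only [sub_zero, inv_one, norm_one, Real.one_rpow] at h2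
  refine le_of_eq_of_le ?_ h2
  congr 1
  funext v
  rw [norm_inv, Real.inv_rpow (norm_nonneg _), Real.rpow_neg (norm_nonneg _)]

/-- the kernels, `1 < κ < 2` -/
theorem kern_gt {κ : ℝ} (h0 : 1 < κ) (hκ : κ < 2) {r : ℝ} (hr : 0 < r) (h1 : r < 1) :
    Real.circleAverage (fun v : ℂ => ‖1 - v‖ ^ (-κ)) 0 r ≤
      (1 - r ^ 2) ^ (1 - κ) / Real.cos ((2 - κ) * (Real.pi / 2)) := by
  have hr1 : |r| < 1 := by rwa [abs_of_pos hr]
  have hr2 : 0 < 1 - r ^ 2 := by nlinarith
  set t : ℝ := 2 - κ with ht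
  have ht0 : 0 ≤ t := by linarith
  have ht1 : t < 1 := by linarith
  have hc := cos_pos' ht0 ht1
  have hne : ∀ v ∈ ball (0 : ℂ) 1, 1 - v ∈ slitPlane := fun v hv => Or.inl (one_sub_re hv)
  have hd : DifferentiableOn ℂ (fun v : ℂ => (1 - v) ^ (t : ℂ)) (ball 0 1) := fun v hv =>
    (((differentiableAt_id.const_sub (1 : ℂ))).differentiableWithinAt).cpow_const (hne v hv)
  have hn0 : ∀ v ∈ ball (0 : ℂ) 1, ‖1 - v‖ ≠ 0 := fun v hv h => by
    have := one_sub_re hv
    rw [norm_eq_zero.1 h] at this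
    simp at this
  -- Poisson formula at `r ^ 2`
  have hw : ((r ^ 2 : ℝ) : ℂ) ∈ ball (0 : ℂ) r := by
    rw [mem_ball_zero_iff, Complex.norm_real, Real.norm_of_nonneg (by positivity)]
    nlinarith
  have hP : Real.circleAverage (poissonKernel 0 ((r ^ 2 : ℝ) : ℂ) • fun v : ℂ => (1 - v) ^ (t : ℂ)) 0 r =
      (1 - ((r ^ 2 : ℝ) : ℂ)) ^ (t : ℂ) := by
    apply DiffContOnCl.circleAverage_poissonKernel_smul _ hw
    exact hd.diffContOnCl_ball (closedBall_subset_ball h1)
  have hPre : Real.circleAverage (fun v => ((poissonKernel 0 ((r ^ 2 : ℝ) : ℂ) • fun v : ℂ => (1 - v) ^ (t : ℂ)) v).re) 0 r =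
      (1 - r ^ 2) ^ t := by
    rw [av_re, hP]
    · have : (1 - ((r ^ 2 : ℝ) : ℂ)) ^ (t : ℂ) = (((1 - r ^ 2) ^ t : ℝ) : ℂ) := by
        rw [Complex.ofReal_cpow hr2.le]
        push_cast
        rfl
      rw [this, Complex.ofReal_re]
    · apply ContinuousOn.circleIntegrable'
      apply ContinuousOn.smul
      · unfold poissonKernel
        apply ContinuousOn.div (by fun_prop) (by fun_prop)
        intro v hv h
        rw [mem_sphere_zero_iff_norm, abs_of_pos hr] at hv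
        simp only [sub_zero] at h
        have : v = ((r ^ 2 : ℝ) : ℂ) := by
          rw [← sub_eq_zero, ← norm_eq_zero]
          exact pow_eq_zero_iff two_ne_zero |>.1 h
        rw [this, Complex.norm_real, Real.norm_of_nonneg (by positivity)] at hv
        nlinarith
      · exact hd.continuousOn.mono (sphere_sub hr1)
  have hpt : ∀ v ∈ sphere (0 : ℂ) |r|, ‖1 - v‖ ^ (-κ) ≤ ((1 - r ^ 2)⁻¹ * (Real.cos (t * (Real.pi / 2)))⁻¹) *
      ((poissonKernel 0 ((r ^ 2 : ℝ) : ℂ) • fun v : ℂ => (1 - v) ^ (t : ℂ)) v).re := by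
    intro v hv
    have hvb := sphere_sub hr1 hv
    rw [mem_sphere_zero_iff_norm, abs_of_pos hr] at hv
    have hn := hn0 v hvb
    have hn' : 0 < ‖1 - v‖ := lt_of_le_of_ne (norm_nonneg _) (Ne.symm hn)
    have e1 : ‖v - ((r ^ 2 : ℝ) : ℂ)‖ = r * ‖1 - v‖ := by
      have h3 : v - ((r ^ 2 : ℝ) : ℂ) = v * (starRingEnd ℂ) (1 - v) := by
        rw [map_sub, map_one, mul_sub, mul_one, Complex.mul_conj, Complex.normSq_eq_norm_sq, hv]
      rw [h3, norm_mul, hv, RCLike.norm_conj]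
    have e2 : poissonKernel 0 ((r ^ 2 : ℝ) : ℂ) v = (1 - r ^ 2) / ‖1 - v‖ ^ 2 := by
      rw [poissonKernel_def, sub_zero, sub_zero, e1, hv, Complex.norm_real, Real.norm_of_nonneg (by positivity)]
      field_simp
    have e3 : ((poissonKernel 0 ((r ^ 2 : ℝ) : ℂ) • fun v : ℂ => (1 - v) ^ (t : ℂ)) v).re =
        (1 - r ^ 2) / ‖1 - v‖ ^ 2 * ((1 - v) ^ (t : ℂ)).re := by
      rw [Pi.smul_apply', e2, Complex.real_smul, Complex.re_ofReal_mul]
    have h4 := re_cpow_ge (one_sub_re hvb) ht0 ht1.le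
    have e4 : ‖1 - v‖ ^ (-κ) = ‖1 - v‖ ^ t / ‖1 - v‖ ^ 2 := by
      rw [← Real.rpow_natCast, ← Real.rpow_sub hn']
      congr 1
      push_cast
      rw [ht]
      ring
    rw [e3, e4]
    have h5 : ‖1 - v‖ ^ t ≤ (Real.cos (t * (Real.pi / 2)))⁻¹ * ((1 - v) ^ (t : ℂ)).re := by
      rw [inv_mul_eq_div, le_div_iff₀ hc, mul_comm]
      exact h4
    calc ‖1 - v‖ ^ t / ‖1 - v‖ ^ 2 ≤ ((Real.cos (t * (Real.pi / 2)))⁻¹ * ((1 - v) ^ (t : ℂ)).re) / ‖1 - v‖ ^ 2 := by
          gcongr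
      _ = _ := by
          field_simp
  have hpi : CircleIntegrable (fun v => ((poissonKernel 0 ((r ^ 2 : ℝ) : ℂ) • fun v : ℂ => (1 - v) ^ (t : ℂ)) v).re) 0 r := by
    apply ContinuousOn.circleIntegrable'
    apply Complex.continuous_re.comp_continuousOn
    apply ContinuousOn.smul
    · unfold poissonKernel
      apply ContinuousOn.div (by fun_prop) (by fun_prop)
      intro v hv h
      rw [mem_sphere_zero_iff_norm, abs_of_pos hr] at hv
      simp only [sub_zero] at h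
      have : v = ((r ^ 2 : ℝ) : ℂ) := by
        rw [← sub_eq_zero, ← norm_eq_zero]
        exact pow_eq_zero_iff two_ne_zero |>.1 h
      rw [this, Complex.norm_real, Real.norm_of_nonneg (by positivity)] at hv
      nlinarith
    · exact hd.continuousOn.mono (sphere_sub hr1)
  calc Real.circleAverage (fun v : ℂ => ‖1 - v‖ ^ (-κ)) 0 r
      ≤ Real.circleAverage (fun v => ((1 - r ^ 2)⁻¹ * (Real.cos (t * (Real.pi / 2)))⁻¹) *
        ((poissonKernel 0 ((r ^ 2 : ℝ) : ℂ) • fun v : ℂ => (1 - v) ^ (t : ℂ)) v).re) 0 r := by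
        apply Real.circleAverage_mono _ _ hpt
        · apply cint _ hr1
          exact (continuousOn_const.sub continuousOn_id).norm.rpow_const fun v hv => Or.inl (hn0 v hv)
        · exact hpi.const_fun_smul
    _ = ((1 - r ^ 2)⁻¹ * (Real.cos (t * (Real.pi / 2)))⁻¹) * (1 - r ^ 2) ^ t := by
        rw [← hPre]
        exact Real.circleAverage_fun_smul (𝕜 := ℝ) (a := (1 - r ^ 2)⁻¹ * (Real.cos (t * (Real.pi / 2)))⁻¹)
    _ = _ := by
        rw [div_eq_mul_inv, mul_assoc, mul_comm (Real.cos _)⁻¹, ← mul_assoc]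
        congr 1
        rw [← Real.rpow_neg_one, ← Real.rpow_add hr2]
        congr 1
        rw [ht]
        ring

end Pool.Agent.Z55M
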