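import Mathlib
import Pool.Agent.Z55M.Kern

/-! The logarithm of a spirallike function as a potential. -/

set_option autoImplicit false
open Complex Metric Set Filter Topology MeasureTheory

namespace Pool.Agent.Z55M

theorem av_mul (a : ℂ) (f : ℂ → ℂ) (r : ℝ) :
    Real.circleAverage (fun z => a * f z) 0 r = a * Real.circleAverage f 0 r := by
  have := Real.circleAverage_fun_smul (𝕜 := ℂ) (a := a) (f := f) (c := 0) (R := r)
  simpa [smul_eq_mul] using this

theorem av_mulr (a : ℝ) (f : ℂ → ℝ) (r : ℝ) :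
    Real.circleAverage (fun z => a * f z) 0 r = a * Real.circleAverage f 0 r := by
  have := Real.circleAverage_fun_smul (𝕜 := ℝ) (a := a) (f := f) (c := 0) (R := r)
  simpa [smul_eq_mul] using this

theorem av_conj {f : ℂ → ℂ} {r : ℝ} (hf : CircleIntegrable f 0 r) :
    Real.circleAverage (fun z => (starRingEnd ℂ) (f z)) 0 r = (starRingEnd ℂ) (Real.circleAverage f 0 r) :=
  (Complex.conjCLE : ℂ →L[ℝ] ℂ).circleAverage_comp_comm hf

theorem sphere_ne {s : ℝ} (hs : 0 < s) {v ζ : ℂ} (hv : ‖v‖ < s) (hζ : ζ ∈ sphere (0 : ℂ) |s|) : ζ - v ≠ 0 := by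
  intro h
  rw [mem_sphere_zero_iff_norm, abs_of_pos hs, sub_eq_zero.1 h] at hζ
  linarith

theorem sphere_ne0 {s : ℝ} (hs : 0 < s) {ζ : ℂ} (hζ : ζ ∈ sphere (0 : ℂ) |s|) : ζ ≠ 0 := by
  rintro rfl
  rw [mem_sphere_zero_iff_norm, abs_of_pos hs, norm_zero] at hζ
  linarith

/-- the Cauchy transform of the real part -/
theorem cauchy_re {q : ℂ → ℂ} (hq : DifferentiableOn ℂ q (ball 0 1)) {s : ℝ} (hs : 0 < s) (hs1 : s < 1) {v : ℂ}
    (hv : ‖v‖ < s) :
    Real.circleAverage (fun ζ => v / (ζ - v) * ((2 * (q ζ).re : ℝ) : ℂ)) 0 s = q v - q 0 := by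
  have hsa : |s| < 1 := by rwa [abs_of_pos hs]
  have hsub := sphere_sub hsa
  have hqc : ContinuousOn q (sphere 0 |s|) := hq.continuousOn.mono hsub
  have hqs : DiffContOnCl ℂ q (ball 0 |s|) := by
    rw [abs_of_pos hs]
    exact hq.diffContOnCl_ball (closedBall_subset_ball hs1)
  have hvb : v ∈ ball (0 : ℂ) |s| := by rw [mem_ball_zero_iff, abs_of_pos hs]; exact hv
  have hk : ContinuousOn (fun ζ : ℂ => v / (ζ - v)) (sphere 0 |s|) := by
    apply ContinuousOn.div (by fun_prop) (by fun_prop)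
    intro ζ hζ
    exact sphere_ne hs hv hζ
  have i1 : CircleIntegrable (fun ζ => v / (ζ - v) * q ζ) 0 s := (hk.mul hqc).circleIntegrable'
  have i2 : CircleIntegrable (fun ζ => v / (ζ - v) * (starRingEnd ℂ) (q ζ)) 0 s :=
    (hk.mul (Complex.continuous_conj.comp_continuousOn hqc)).circleIntegrable'
  have e1 : Real.circleAverage (fun ζ => v / (ζ - v) * q ζ) 0 s = q v - q 0 := by
    have h1 := hqs.circleAverage_smul_div hvb
    have h2 := hqs.circleAverage
    have h3 : Real.circleAverage (fun ζ => v / (ζ - v) * q ζ) 0 s =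
        Real.circleAverage (fun z => ((z - 0) / (z - v)) • q z) 0 s - Real.circleAverage q 0 s := by
      rw [← Real.circleAverage_fun_sub]
      · apply Real.circleAverage_congr_sphere
        intro ζ hζ
        have := sphere_ne hs hv hζ
        simp only [smul_eq_mul, sub_zero]
        field_simp
        ring
      · apply ContinuousOn.circleIntegrable'
        show ContinuousOn ((fun z : ℂ => (z - 0) / (z - v)) • q) (sphere 0 |s|)
        apply ContinuousOn.smul _ hqc
        apply ContinuousOn.div (by fun_prop) (by fun_prop)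
        intro ζ hζ
        exact sphere_ne hs hv hζ
      · exact hqc.circleIntegrable'
    rw [h3, h1, h2]
  have e2 : Real.circleAverage (fun ζ => v / (ζ - v) * (starRingEnd ℂ) (q ζ)) 0 s = 0 := by
    have h1 : Real.circleAverage (fun ζ => v / (ζ - v) * (starRingEnd ℂ) (q ζ)) 0 s =
        Real.circleAverage (fun ζ => (starRingEnd ℂ) (((starRingEnd ℂ) v * ζ / ((s ^ 2 : ℝ) - (starRingEnd ℂ) v * ζ)) * q ζ)) 0 s := by
      apply Real.circleAverage_congr_sphere
      intro ζ hζ
      have hne := sphere_ne hs hv hζ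
      have hne0 := sphere_ne0 hs hζ
      rw [mem_sphere_zero_iff_norm, abs_of_pos hs] at hζ
      have h2 : ζ * (starRingEnd ℂ) ζ = ((s ^ 2 : ℝ) : ℂ) := by
        rw [Complex.mul_conj, Complex.normSq_eq_norm_sq, hζ]
      have h3 : ((s ^ 2 : ℝ) : ℂ) - v * (starRingEnd ℂ) ζ ≠ 0 := by
        rw [← h2, ← sub_mul]
        exact mul_ne_zero hne ((map_ne_zero _).2 hne0)
      simp only [map_mul, map_div₀, map_sub, Complex.conj_conj, Complex.conj_ofReal]
      congr 1
      rw [div_eq_div_iff hne h3, ← h2]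
      ring
    have hd : DifferentiableOn ℂ (fun ζ => ((starRingEnd ℂ) v * ζ / ((s ^ 2 : ℝ) - (starRingEnd ℂ) v * ζ)) * q ζ)
        (closedBall 0 s) := by
      apply DifferentiableOn.mul _ (hq.mono (closedBall_subset_ball hs1))
      apply DifferentiableOn.div (by fun_prop) (by fun_prop)
      intro ζ hζ h
      rw [mem_closedBall_zero_iff] at hζ
      have h2 : ‖(starRingEnd ℂ) v * ζ‖ < s ^ 2 := by
        rw [norm_mul, RCLike.norm_conj, sq]
        nlinarith [norm_nonneg v, norm_nonneg ζ]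
      rw [sub_eq_zero] at h
      rw [← h, Complex.norm_real, Real.norm_of_nonneg (by positivity)] at h2
      exact lt_irrefl _ h2
    rw [h1, av_conj]
    · have h4 : Real.circleAverage (fun ζ => ((starRingEnd ℂ) v * ζ / ((s ^ 2 : ℝ) - (starRingEnd ℂ) v * ζ)) * q ζ) 0 s = 0 := by
        have := DiffContOnCl.circleAverage (c := 0) (R := s)
          (f := fun ζ => ((starRingEnd ℂ) v * ζ / ((s ^ 2 : ℝ) - (starRingEnd ℂ) v * ζ)) * q ζ)
          (by rw [abs_of_pos hs]; exact DifferentiableOn.diffContOnCl_ball hd subset_rfl)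
        rw [this]
        simp
      rw [h4, map_zero]
    · apply ContinuousOn.circleIntegrable'
      rw [abs_of_pos hs]
      exact hd.continuousOn.mono sphere_subset_closedBall
  have h3 : Real.circleAverage (fun ζ => v / (ζ - v) * ((2 * (q ζ).re : ℝ) : ℂ)) 0 s =
      Real.circleAverage (fun ζ => v / (ζ - v) * q ζ + v / (ζ - v) * (starRingEnd ℂ) (q ζ)) 0 s := by
    apply Real.circleAverage_congr_sphere
    intro ζ _
    simp only
    rw [← mul_add, Complex.add_conj]
  rw [h3, Real.circleAverage_fun_add i1 i2, e1, e2, add_zero]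

/-- the potential -/
noncomputable def pot (q : ℂ → ℂ) (s : ℝ) (v : ℂ) : ℂ :=
  Real.circleAverage (fun ζ => Complex.log (1 - v / ζ) * ((2 * (q ζ).re : ℝ) : ℂ)) 0 s

theorem slit_pot {s : ℝ} (hs : 0 < s) {v ζ : ℂ} (hv : ‖v‖ < s) (hζ : ‖ζ‖ = s) : 0 < (1 - v / ζ).re := by
  have h1 : ‖v / ζ‖ < 1 := by
    rw [norm_div, hζ, div_lt_one hs]
    exact hv
  have := (Complex.re_le_norm (v / ζ)).trans_lt h1
  simpa using this

theorem pot_zero (q : ℂ → ℂ) (s : ℝ) : pot q s 0 = 0 := by
  unfold pot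
  simp [Real.circleAverage]

theorem pot_deriv {q : ℂ → ℂ} (hq : ContinuousOn q (ball 0 1)) {s : ℝ} (hs : 0 < s) (hs1 : s < 1) {v : ℂ}
    (hv : ‖v‖ < s) :
    HasDerivAt (pot q s) (Real.circleAverage (fun ζ => -(ζ - v)⁻¹ * ((2 * (q ζ).re : ℝ) : ℂ)) 0 s) v := by
  have hsa : |s| < 1 := by rwa [abs_of_pos hs]
  set w : ℝ → ℂ := fun θ => ((2 * (q (circleMap 0 s θ)).re : ℝ) : ℂ) with hw
  have hcm : Continuous (circleMap 0 s) := continuous_circleMap 0 s
  have hcmn : ∀ θ, ‖circleMap 0 s θ‖ = s := fun θ => by rw [norm_circleMap_zero, abs_of_pos hs]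
  have hcmb : ∀ θ, circleMap 0 s θ ∈ ball (0 : ℂ) 1 := fun θ => by rw [mem_ball_zero_iff, hcmn]; exact hs1
  have hwc : Continuous w := by
    have : Continuous fun θ => q (circleMap 0 s θ) := by
      rw [← continuousOn_univ]
      exact hq.comp hcm.continuousOn fun θ _ => hcmb θ
    exact Complex.continuous_ofReal.comp (continuous_const.mul (Complex.continuous_re.comp this))
  have hε : 0 < (s - ‖v‖) / 2 := by linarith
  have hx : ∀ x ∈ ball v ((s - ‖v‖) / 2), ∀ θ, (s - ‖v‖) / 2 ≤ ‖circleMap 0 s θ - x‖ ∧ ‖x‖ < s := by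
    intro x hx θ
    rw [mem_ball_iff_norm] at hx
    have h1 : ‖x‖ < (s + ‖v‖) / 2 := by
      have := norm_add_le (x - v) v
      rw [sub_add_cancel] at this
      linarith
    constructor
    · have := norm_sub_norm_le (circleMap 0 s θ) x
      rw [hcmn] at this
      linarith
    · linarith
  have hlogc : ∀ x : ℂ, ‖x‖ < s → Continuous fun θ => Complex.log (1 - x / circleMap 0 s θ) * w θ := by
    intro x hx
    apply Continuous.mul _ hwc
    rw [continuous_iff_continuousAt]
    intro θ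
    apply ContinuousAt.clog
    · apply ContinuousAt.sub continuousAt_const
      apply ContinuousAt.div continuousAt_const hcm.continuousAt
      rw [← norm_pos_iff, hcmn]
      exact hs
    · exact Or.inl (slit_pot hs hx (hcmn θ))
  unfold pot
  simp only [Real.circleAverage_def]
  apply HasDerivAt.const_smul
  refine (intervalIntegral.hasDerivAt_integral_of_dominated_loc_of_deriv_le
    (F := fun x θ => Complex.log (1 - x / circleMap 0 s θ) * w θ)
    (F' := fun x θ => -(circleMap 0 s θ - x)⁻¹ * w θ)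
    (bound := fun θ => ((s - ‖v‖) / 2)⁻¹ * ‖w θ‖)
    (ball_mem_nhds v hε) ?_ ?_ ?_ ?_ ?_ ?_).2
  · filter_upwards [isOpen_ball.mem_nhds (mem_ball_self hε)] with x hxb
    exact (hlogc x (hx x hxb 0).2).aestronglyMeasurable
  · exact (hlogc v hv).intervalIntegrable _ _
  · apply Continuous.aestronglyMeasurable
    apply Continuous.mul _ hwc
    apply Continuous.neg
    apply Continuous.inv₀ (hcm.sub continuous_const)
    intro θ h
    have h' : circleMap 0 s θ - v = 0 := h
    have := (hx v (mem_ball_self hε) θ).1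
    rw [h', norm_zero] at this
    linarith
  · filter_upwards with θ _ x hxb
    rw [norm_mul, norm_neg, norm_inv]
    gcongr
    exact (hx x hxb θ).1
  · exact (continuous_const.mul hwc.norm).intervalIntegrable _ _
  · filter_upwards with θ _ x hxb
    apply HasDerivAt.mul_const
    have hne : circleMap 0 s θ ≠ 0 := by
      rw [← norm_pos_iff, hcmn]
      exact hs
    have hsl : 1 - x / circleMap 0 s θ ∈ slitPlane := Or.inl (slit_pot hs (hx x hxb θ).2 (hcmn θ))
    have h1 : HasDerivAt (fun x : ℂ => 1 - x / circleMap 0 s θ) (-(1 / circleMap 0 s θ)) x :=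
      ((hasDerivAt_id x).div_const _).const_sub 1
    have h2 := h1.clog hsl
    refine h2.congr_deriv ?_
    have h3 : circleMap 0 s θ - x ≠ 0 := by
      intro h
      have := (hx x hxb θ).1
      rw [h, norm_zero] at this
      linarith
    have h4 : 1 - x / circleMap 0 s θ ≠ 0 := slitPlane_ne_zero hsl
    field_simp

/-- `μ` unimodular, `q` with positive real part, `q(0) = μ`, and `v G'(v) = 1 - q(v) / μ`. -/
structure Dat (μ : ℂ) (q G : ℂ → ℂ) : Prop where
  dq : DifferentiableOn ℂ q (ball 0 1)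
  dG : DifferentiableOn ℂ G (ball 0 1)
  G0 : G 0 = 0
  pos : ∀ v ∈ ball (0 : ℂ) 1, 0 < (q v).re
  q0 : q 0 = μ
  mu : ‖μ‖ = 1
  eq : ∀ v ∈ ball (0 : ℂ) 1, v * deriv G v = 1 - (starRingEnd ℂ) μ * q v

theorem Dat.mumu {μ : ℂ} {q G : ℂ → ℂ} (D : Dat μ q G) : (starRingEnd ℂ) μ * μ = 1 := by
  rw [mul_comm, Complex.mul_conj, Complex.normSq_eq_norm_sq, D.mu]
  norm_num

/-- **the representation** -/
theorem Dat.rep {μ : ℂ} {q G : ℂ → ℂ} (D : Dat μ q G) {s : ℝ} (hs : 0 < s) (hs1 : s < 1) {v : ℂ} (hv : ‖v‖ < s) :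
    G v = (starRingEnd ℂ) μ * pot q s v := by
  have hsub : ball (0 : ℂ) s ⊆ ball 0 1 := ball_subset_ball hs1.le
  have hpd : DifferentiableOn ℂ (pot q s) (ball 0 s) := fun v hv =>
    (pot_deriv D.dq.continuousOn hs hs1 (mem_ball_zero_iff.1 hv)).differentiableAt.differentiableWithinAt
  set E : ℂ → ℂ := fun v => G v - (starRingEnd ℂ) μ * pot q s v with hE
  have hEd : DifferentiableOn ℂ E (ball 0 s) := (D.dG.mono hsub).sub (hpd.const_mul _)
  have hE1 : ∀ v ∈ ball (0 : ℂ) s, v * deriv E v = 0 := by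
    intro v hv
    have hvn := mem_ball_zero_iff.1 hv
    have h1 : HasDerivAt G (deriv G v) v :=
      (D.dG.differentiableAt (isOpen_ball.mem_nhds (hsub hv))).hasDerivAt
    have h2 := pot_deriv D.dq.continuousOn hs hs1 hvn
    have h3 : deriv E v = deriv G v - (starRingEnd ℂ) μ *
        Real.circleAverage (fun ζ => -(ζ - v)⁻¹ * ((2 * (q ζ).re : ℝ) : ℂ)) 0 s := (h1.sub (h2.const_mul _)).deriv
    have h4 : v * Real.circleAverage (fun ζ => -(ζ - v)⁻¹ * ((2 * (q ζ).re : ℝ) : ℂ)) 0 s = -(q v - q 0) := by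
      rw [← cauchy_re D.dq hs hs1 hvn, ← av_mul, ← neg_one_mul, ← av_mul]
      congr 1
      funext ζ
      ring
    rw [h3, mul_sub, D.eq v (hsub hv), mul_left_comm, h4, D.q0]
    have := D.mumu
    linear_combination -this
  have hE2 : ∀ v ∈ ball (0 : ℂ) s, deriv E v = 0 := by
    have hdc : ContinuousOn (deriv E) (ball 0 s) := (hEd.deriv isOpen_ball).continuousOn
    intro v hv
    by_cases hv0 : v = 0
    · rw [hv0]
      have h0 : (0 : ℂ) ∈ ball (0 : ℂ) s := mem_ball_self hs
      have h1 : Tendsto (deriv E) (𝓝[≠] 0) (𝓝 (deriv E 0)) :=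
        ((hdc.continuousAt (isOpen_ball.mem_nhds h0)).tendsto).mono_left nhdsWithin_le_nhds
      have h2 : Tendsto (deriv E) (𝓝[≠] 0) (𝓝 0) := by
        refine tendsto_const_nhds.congr' ?_
        have h3 : ∀ᶠ x in 𝓝[≠] (0 : ℂ), x ∈ ball (0 : ℂ) s :=
          nhdsWithin_le_nhds (isOpen_ball.mem_nhds h0)
        filter_upwards [h3, self_mem_nhdsWithin] with x hx hx0
        have := hE1 x hx
        rw [mul_eq_zero] at this
        exact (this.resolve_left hx0).symm
      exact tendsto_nhds_unique h1 h2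
    · have := hE1 v hv
      rw [mul_eq_zero] at this
      exact this.resolve_left hv0
  have hconst := isOpen_ball.is_const_of_deriv_eq_zero (convex_ball (0 : ℂ) s).isPreconnected hEd
    (fun v hv => hE2 v hv) (mem_ball_zero_iff.2 hv) (mem_ball_self hs)
  have h0 : E 0 = 0 := by
    simp only [hE]
    rw [D.G0, pot_zero, mul_zero, sub_zero]
  rw [h0] at hconst
  exact sub_eq_zero.1 hconst

end Pool.Agent.Z55M
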