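import Mathlib
import Pool.Agent.Z55M.Herg

/-! Jensen's inequality and Fubini's theorem for the potentials. -/

set_option autoImplicit false
open Complex Metric Set Filter Topology MeasureTheory

namespace Pool.Agent.Z55M

/-- Jensen's inequality for the exponential function -/
theorem av_jensen {φ w : ℂ → ℝ} {s : ℝ} (hφ : ContinuousOn φ (sphere 0 |s|)) (hw : ContinuousOn w (sphere 0 |s|))
    (hw0 : ∀ ζ ∈ sphere (0 : ℂ) |s|, 0 ≤ w ζ) (hw1 : Real.circleAverage w 0 s = 1) :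
    Real.exp (Real.circleAverage (fun ζ => φ ζ * w ζ) 0 s) ≤ Real.circleAverage (fun ζ => Real.exp (φ ζ) * w ζ) 0 s := by
  set m := Real.circleAverage (fun ζ => φ ζ * w ζ) 0 s with hm
  have i1 : CircleIntegrable (fun ζ => φ ζ * w ζ) 0 s := (hφ.mul hw).circleIntegrable'
  have i2 : CircleIntegrable w 0 s := hw.circleIntegrable'
  have h1 : Real.circleAverage (fun ζ => Real.exp m * (φ ζ * w ζ) + (Real.exp m * (1 - m)) * w ζ) 0 s = Real.exp m := by
    rw [Real.circleAverage_fun_add, av_mulr, av_mulr, ← hm, hw1]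
    · ring
    · exact ((continuousOn_const).mul (hφ.mul hw)).circleIntegrable'
    · exact ((continuousOn_const).mul hw).circleIntegrable'
  calc Real.exp m = Real.circleAverage (fun ζ => Real.exp m * (φ ζ * w ζ) + (Real.exp m * (1 - m)) * w ζ) 0 s := h1.symm
    _ ≤ _ := by
      apply Real.circleAverage_mono
      · exact (((continuousOn_const).mul (hφ.mul hw)).add ((continuousOn_const).mul hw)).circleIntegrable'
      · exact ((Real.continuous_exp.comp_continuousOn hφ).mul hw).circleIntegrable'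
      · intro ζ hζ
        have h2 := Real.add_one_le_exp (φ ζ - m)
        have h3 : Real.exp (φ ζ) = Real.exp m * Real.exp (φ ζ - m) := by
          rw [← Real.exp_add]; congr 1; ring
        rw [h3]
        have h4 : Real.exp m * (φ ζ - m + 1) ≤ Real.exp m * Real.exp (φ ζ - m) :=
          mul_le_mul_of_nonneg_left h2 (Real.exp_pos _).le
        have h5 := mul_le_mul_of_nonneg_right h4 (hw0 ζ hζ)
        refine le_trans (le_of_eq ?_) h5
        ring

/-- Fubini's theorem for circle averages -/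
theorem av_swap {F : ℂ → ℂ → ℝ} {r s : ℝ}
    (hF : Continuous fun p : ℝ × ℝ => F (circleMap 0 r p.1) (circleMap 0 s p.2)) :
    Real.circleAverage (fun v => Real.circleAverage (fun ζ => F v ζ) 0 s) 0 r =
      Real.circleAverage (fun ζ => Real.circleAverage (fun v => F v ζ) 0 r) 0 s := by
  have hpi : (0 : ℝ) ≤ 2 * Real.pi := by positivity
  simp only [Real.circleAverage_def, smul_eq_mul]
  rw [intervalIntegral.integral_const_mul, intervalIntegral.integral_const_mul]
  congr 2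
  simp only [intervalIntegral.integral_of_le hpi]
  apply integral_integral_swap
  rw [Measure.prod_restrict]
  have h1 : IntegrableOn (fun p : ℝ × ℝ => F (circleMap 0 r p.1) (circleMap 0 s p.2))
      (Icc 0 (2 * Real.pi) ×ˢ Icc 0 (2 * Real.pi)) (volume.prod volume) :=
    hF.continuousOn.integrableOn_compact (isCompact_Icc.prod isCompact_Icc)
  exact h1.mono_set (prod_mono Ioc_subset_Icc_self Ioc_subset_Icc_self)

/-- rotation and scaling -/
theorem av_rot (f : ℂ → ℝ) {r s : ℝ} (hs : 0 < s) {ζ : ℂ} (hζ : ‖ζ‖ = s) :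
    Real.circleAverage (fun v => f (v / ζ)) 0 r = Real.circleAverage f 0 (r / s) := by
  have hζ0 : ζ ≠ 0 := by
    rw [← norm_pos_iff, hζ]
    exact hs
  rw [Real.circleAverage_eq_integral_add (f := fun v => f (v / ζ)) ζ.arg]
  unfold Real.circleAverage
  congr 1
  apply intervalIntegral.integral_congr
  intro θ _
  simp only
  congr 1
  rw [circleMap_zero, circleMap_zero, div_eq_iff hζ0]
  conv_rhs => rw [← Complex.norm_mul_exp_arg_mul_I ζ, hζ]
  have : (s : ℂ) ≠ 0 := by exact_mod_cast hs.ne'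
  push_cast
  rw [add_mul, Complex.exp_add]
  field_simp

/-- the constant -/
noncomputable def Kc (b : ℝ) : ℝ := Real.exp (Real.pi * b + 2 * b * Real.log 2)

theorem Kc_pos (b : ℝ) : 0 < Kc b := Real.exp_pos _

section

variable {μ : ℂ} {q G : ℂ → ℂ}

theorem Dat.mre (D : Dat μ q G) : 0 < μ.re := by
  rw [← D.q0]
  exact D.pos 0 (mem_ball_self one_pos)

theorem Dat.mre1 (D : Dat μ q G) : μ.re ≤ 1 := by
  rw [← D.mu]
  exact Complex.re_le_norm μ

theorem Dat.wcont (D : Dat μ q G) : ContinuousOn (fun ζ => (q ζ).re / μ.re) (ball 0 1) :=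
  (Complex.continuous_re.comp_continuousOn D.dq.continuousOn).div_const _

theorem Dat.wav (D : Dat μ q G) {s : ℝ} (hs1 : |s| < 1) :
    Real.circleAverage (fun ζ => (q ζ).re / μ.re) 0 s = 1 := by
  have h := D.mre
  have h1 : (fun ζ => (q ζ).re / μ.re) = fun ζ => μ.re⁻¹ * (q ζ).re := by
    funext ζ
    ring
  rw [h1, av_mulr, av_re (cint D.dq.continuousOn hs1), av_mean D.dq hs1, D.q0]
  field_simp

theorem arith_mu (hμ : ‖μ‖ = 1) : (starRingEnd ℂ) μ * (2 * μ.re : ℝ) = 1 + (starRingEnd ℂ) μ ^ 2 := by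
  have h1 : μ * (starRingEnd ℂ) μ = 1 := by
    rw [Complex.mul_conj, Complex.normSq_eq_norm_sq, hμ]
    norm_num
  have h2 : ((2 * μ.re : ℝ) : ℂ) = μ + (starRingEnd ℂ) μ := (Complex.add_conj μ).symm
  rw [h2]
  linear_combination h1

/-- the pointwise estimate -/
theorem pt_bound (hμ : ‖μ‖ = 1) (τ : ℂ) {u : ℂ} (hu : 0 < u.re) (hu2 : ‖u‖ ≤ 2) :
    Real.exp ((τ * (1 + (starRingEnd ℂ) μ ^ 2) * Complex.log u).re) ≤ Kc ‖τ‖ * ‖u‖ ^ (-(‖τ‖ - τ.re)) := by
  have hu0 : u ≠ 0 := by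
    rintro rfl
    simp at hu
  have hn : 0 < ‖u‖ := norm_pos_iff.2 hu0
  have hpi := Real.pi_pos
  set a : ℂ := τ * (1 + (starRingEnd ℂ) μ ^ 2) with ha
  have hb : ‖a‖ ≤ 2 * ‖τ‖ := by
    rw [ha, norm_mul]
    have : ‖(1 : ℂ) + (starRingEnd ℂ) μ ^ 2‖ ≤ 2 := by
      refine (norm_add_le _ _).trans ?_
      rw [norm_one, norm_pow, RCLike.norm_conj, hμ]
      norm_num
    nlinarith [norm_nonneg τ]
  have hτ2 : ‖τ * (starRingEnd ℂ) μ ^ 2‖ = ‖τ‖ := by
    rw [norm_mul, norm_pow, RCLike.norm_conj, hμ]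
    ring
  have har : a.re = τ.re + (τ * (starRingEnd ℂ) μ ^ 2).re := by
    rw [ha, mul_add, mul_one, Complex.add_re]
  have h1 := Complex.abs_re_le_norm (τ * (starRingEnd ℂ) μ ^ 2)
  rw [hτ2] at h1
  have h2 := abs_le.1 h1
  have h3 := Complex.abs_im_le_norm a
  have harg : |u.arg| ≤ Real.pi / 2 := (Complex.abs_arg_lt_pi_div_two_iff.2 (Or.inl hu)).le
  have h4 : (a * Complex.log u).re = a.re * Real.log ‖u‖ - a.im * u.arg := by
    rw [Complex.mul_re, Complex.log_re, Complex.log_im]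
  have h5 : -(a.im * u.arg) ≤ Real.pi * ‖τ‖ := by
    calc -(a.im * u.arg) ≤ |a.im * u.arg| := neg_le_abs _
      _ = |a.im| * |u.arg| := abs_mul _ _
      _ ≤ (2 * ‖τ‖) * (Real.pi / 2) := by
          apply mul_le_mul (h3.trans hb) harg (abs_nonneg _) (by positivity)
      _ = _ := by ring
  have hlog : Real.log ‖u‖ ≤ Real.log 2 := Real.log_le_log hn hu2
  have hl2 : 0 < Real.log 2 := Real.log_pos (by norm_num)
  have h6 : (a.re + (‖τ‖ - τ.re)) * Real.log ‖u‖ ≤ 2 * ‖τ‖ * Real.log 2 := by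
    have h7 : 0 ≤ a.re + (‖τ‖ - τ.re) := by rw [har]; linarith
    have h8 : a.re + (‖τ‖ - τ.re) ≤ 2 * ‖τ‖ := by rw [har]; linarith
    calc (a.re + (‖τ‖ - τ.re)) * Real.log ‖u‖ ≤ (a.re + (‖τ‖ - τ.re)) * Real.log 2 :=
          mul_le_mul_of_nonneg_left hlog h7
      _ ≤ _ := mul_le_mul_of_nonneg_right h8 hl2.le
  rw [Kc, Real.rpow_def_of_pos hn, ← Real.exp_add, Real.exp_le_exp, h4]
  nlinarith

/-- **the pointwise estimate for the spirallike factor** -/
theorem Dat.exp_le (D : Dat μ q G) {s : ℝ} (hs : 0 < s) (hs1 : s < 1) {v : ℂ} (hv : ‖v‖ < s) (τ : ℂ) :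
    ‖Complex.exp (τ * G v)‖ ≤ Kc ‖τ‖ *
      Real.circleAverage (fun ζ => ‖1 - v / ζ‖ ^ (-(‖τ‖ - τ.re)) * ((q ζ).re / μ.re)) 0 s := by
  have hsa : |s| < 1 := by rwa [abs_of_pos hs]
  have hm := D.mre
  have hsub := sphere_sub hsa
  have hwc : ContinuousOn (fun ζ => (q ζ).re / μ.re) (sphere 0 |s|) := D.wcont.mono hsub
  have hu : ∀ ζ ∈ sphere (0 : ℂ) |s|, 0 < (1 - v / ζ).re := by
    intro ζ hζ
    rw [mem_sphere_zero_iff_norm, abs_of_pos hs] at hζ
    exact slit_pot hs hv hζ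
  have hu2 : ∀ ζ ∈ sphere (0 : ℂ) |s|, ‖1 - v / ζ‖ ≤ 2 := by
    intro ζ hζ
    rw [mem_sphere_zero_iff_norm, abs_of_pos hs] at hζ
    refine (norm_sub_le _ _).trans ?_
    rw [norm_one, norm_div, hζ]
    have : ‖v‖ / s ≤ 1 := (div_le_one hs).2 hv.le
    linarith
  have huc : ContinuousOn (fun ζ : ℂ => 1 - v / ζ) (sphere 0 |s|) := by
    apply continuousOn_const.sub
    exact continuousOn_const.div continuousOn_id fun ζ hζ => sphere_ne0 hs hζ
  have hlc : ContinuousOn (fun ζ : ℂ => Complex.log (1 - v / ζ)) (sphere 0 |s|) :=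
    huc.clog fun ζ hζ => Or.inl (hu ζ hζ)
  set a : ℂ := τ * (1 + (starRingEnd ℂ) μ ^ 2) with ha
  have hφc : ContinuousOn (fun ζ : ℂ => (a * Complex.log (1 - v / ζ)).re) (sphere 0 |s|) :=
    Complex.continuous_re.comp_continuousOn (continuousOn_const.mul hlc)
  have e1 : τ * G v = Real.circleAverage (fun ζ => (a * Complex.log (1 - v / ζ)) * (((q ζ).re / μ.re : ℝ) : ℂ)) 0 s := by
    rw [D.rep hs hs1 hv, pot, ← av_mul, ← av_mul]
    congr 1
    funext ζ
    have h1 := arith_mu D.mu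
    have hm' : (μ.re : ℂ) ≠ 0 := by exact_mod_cast hm.ne'
    rw [ha, ← h1]
    push_cast
    field_simp
  have e2 : (τ * G v).re = Real.circleAverage (fun ζ => (a * Complex.log (1 - v / ζ)).re * ((q ζ).re / μ.re)) 0 s := by
    rw [e1, ← av_re]
    · congr 1
      funext ζ
      rw [Complex.re_mul_ofReal]
    · apply ContinuousOn.circleIntegrable'
      exact (continuousOn_const.mul hlc).mul (Complex.continuous_ofReal.comp_continuousOn hwc)
  have hw0 : ∀ ζ ∈ sphere (0 : ℂ) |s|, 0 ≤ (q ζ).re / μ.re := fun ζ hζ =>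
    div_nonneg (D.pos ζ (hsub hζ)).le hm.le
  rw [Complex.norm_exp, e2]
  refine (av_jensen hφc hwc hw0 (D.wav hsa)).trans ?_
  rw [← av_mulr]
  apply Real.circleAverage_mono
  · exact ((Real.continuous_exp.comp_continuousOn hφc).mul hwc).circleIntegrable'
  · apply ContinuousOn.circleIntegrable'
    apply continuousOn_const.mul
    apply ContinuousOn.mul _ hwc
    exact huc.norm.rpow_const fun ζ hζ => Or.inl (by
      have := hu ζ hζ
      intro h
      rw [norm_eq_zero.1 h] at this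
      simp at this)
  · intro ζ hζ
    rw [← mul_assoc]
    exact mul_le_mul_of_nonneg_right (pt_bound D.mu τ (hu ζ hζ) (hu2 ζ hζ)) (hw0 ζ hζ)

end

end Pool.Agent.Z55M
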