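import Mathlib
import Pool.Agent.Z55M.Mean

/-! Means of the potentials, and the bounds for functions with positive real part. -/

set_option autoImplicit false
open Complex Metric Set Filter Topology MeasureTheory

namespace Pool.Agent.Z55M

section

variable {μ : ℂ} {q G : ℂ → ℂ}

theorem cm_cont_q (D : Dat μ q G) {s : ℝ} (hs1 : |s| < 1) : Continuous fun θ => q (circleMap 0 s θ) := by
  rw [← continuousOn_univ]
  apply D.dq.continuousOn.comp (continuous_circleMap 0 s).continuousOn
  intro θ _
  rw [mem_ball_zero_iff, norm_circleMap_zero]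
  exact hs1

theorem pos_sub {r s : ℝ} (hr : 0 < r) (hrs : r < s) (θ η : ℝ) :
    0 < (1 - circleMap 0 r θ / circleMap 0 s η).re := by
  apply slit_pot (hr.trans hrs)
  · rw [norm_circleMap_zero, abs_of_pos hr]; exact hrs
  · rw [norm_circleMap_zero, abs_of_pos (hr.trans hrs)]

/-- **means of the potentials** -/
theorem Dat.avk (D : Dat μ q G) {r s : ℝ} (hr : 0 < r) (hrs : r < s) (hs1 : s < 1) (κ : ℝ) :
    Real.circleAverage (fun v => Real.circleAverage (fun ζ => ‖1 - v / ζ‖ ^ (-κ) * ((q ζ).re / μ.re)) 0 s) 0 r =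
      Real.circleAverage (fun u : ℂ => ‖1 - u‖ ^ (-κ)) 0 (r / s) := by
  have hs := hr.trans hrs
  have hsa : |s| < 1 := by rwa [abs_of_pos hs]
  rw [av_swap]
  · have h1 : Real.circleAverage (fun ζ => Real.circleAverage (fun v => ‖1 - v / ζ‖ ^ (-κ) * ((q ζ).re / μ.re)) 0 r) 0 s =
        Real.circleAverage (fun ζ => Real.circleAverage (fun u : ℂ => ‖1 - u‖ ^ (-κ)) 0 (r / s) * ((q ζ).re / μ.re)) 0 s := by
      apply Real.circleAverage_congr_sphere
      intro ζ hζ
      rw [mem_sphere_zero_iff_norm, abs_of_pos hs] at hζ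
      simp only
      rw [← av_rot (fun u : ℂ => ‖1 - u‖ ^ (-κ)) (r := r) hs hζ, mul_comm, ← av_mulr]
      congr 1
      funext v
      ring
    rw [h1, av_mulr, D.wav hsa, mul_one]
  · apply Continuous.mul
    · apply Continuous.rpow_const
      · apply Continuous.norm
        apply continuous_const.sub
        apply Continuous.div
        · exact (continuous_circleMap 0 r).comp continuous_fst
        · exact (continuous_circleMap 0 s).comp continuous_snd
        · intro p
          rw [← norm_pos_iff, norm_circleMap_zero, abs_of_pos hs]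
          exact hs
      · intro p
        left
        intro h
        have := pos_sub hr hrs p.1 p.2
        rw [norm_eq_zero.1 h] at this
        simp at this
    · apply Continuous.div_const
      exact Complex.continuous_re.comp ((cm_cont_q D hsa).comp continuous_snd)

theorem Dat.avexp (D : Dat μ q G) {r s : ℝ} (hr : 0 < r) (hrs : r < s) (hs1 : s < 1) (τ : ℂ) :
    Real.circleAverage (fun v => ‖Complex.exp (τ * G v)‖) 0 r ≤
      Kc ‖τ‖ * Real.circleAverage (fun u : ℂ => ‖1 - u‖ ^ (-(‖τ‖ - τ.re))) 0 (r / s) := by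
  have hs := hr.trans hrs
  have hr1 : |r| < 1 := by rw [abs_of_pos hr]; linarith
  rw [← D.avk hr hrs hs1, ← av_mulr]
  apply Real.circleAverage_mono
  · exact cint (Complex.continuous_exp.comp_continuousOn (continuousOn_const.mul D.dG.continuousOn)).norm hr1
  · apply CircleIntegrable.const_fun_smul
    apply Continuous.intervalIntegrable
    -- continuity of the inner average
    have hsa : |s| < 1 := by rwa [abs_of_pos hs]
    show Continuous fun θ => Real.circleAverage (fun ζ => ‖1 - circleMap 0 r θ / ζ‖ ^ (-(‖τ‖ - τ.re)) *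
      ((q ζ).re / μ.re)) 0 s
    unfold Real.circleAverage
    simp only [smul_eq_mul]
    apply continuous_const.mul
    apply intervalIntegral.continuous_parametric_intervalIntegral_of_continuous'
    show Continuous fun p : ℝ × ℝ => ‖1 - circleMap 0 r p.1 / circleMap 0 s p.2‖ ^ (-(‖τ‖ - τ.re)) *
      ((q (circleMap 0 s p.2)).re / μ.re)
    apply Continuous.mul
    · apply Continuous.rpow_const
      · apply Continuous.norm
        apply continuous_const.sub
        apply Continuous.div
        · exact (continuous_circleMap 0 r).comp continuous_fst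
        · exact (continuous_circleMap 0 s).comp continuous_snd
        · intro p
          rw [← norm_pos_iff, norm_circleMap_zero, abs_of_pos hs]
          exact hs
      · intro p
        left
        intro h
        have := pos_sub hr hrs p.1 p.2
        rw [norm_eq_zero.1 h] at this
        simp at this
    · apply Continuous.div_const
      exact Complex.continuous_re.comp ((cm_cont_q D hsa).comp continuous_snd)
  · intro v hv
    rw [mem_sphere_zero_iff_norm, abs_of_pos hr] at hv
    exact D.exp_le hs hs1 (by rw [hv]; exact hrs) τ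

/-- Harnack -/
theorem pos_le {q : ℂ → ℂ} (hq : DifferentiableOn ℂ q (ball 0 1)) (hp : ∀ v ∈ ball (0 : ℂ) 1, 0 < (q v).re)
    (h0 : ‖q 0‖ = 1) {v : ℂ} (hv : ‖v‖ < 1) : ‖q v‖ * (1 - ‖v‖) ≤ 1 + ‖v‖ := by
  set μ := q 0 with hμ
  have hm : 0 < μ.re := hp 0 (mem_ball_self one_pos)
  have hne : ∀ v ∈ ball (0 : ℂ) 1, q v + (starRingEnd ℂ) μ ≠ 0 := by
    intro v hv h
    have h1 := congrArg Complex.re h
    rw [Complex.add_re, Complex.conj_re, Complex.zero_re] at h1
    have := hp v hv
    linarith
  have hd : DifferentiableOn ℂ (fun v => (q v - μ) / (q v + (starRingEnd ℂ) μ)) (ball 0 1) :=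
    (hq.sub_const μ).div (hq.add_const _) hne
  have hmaps : MapsTo (fun v => (q v - μ) / (q v + (starRingEnd ℂ) μ)) (ball 0 1) (ball 0 1) := by
    intro v hv
    have h1 := hne v hv
    rw [mem_ball_zero_iff, norm_div, div_lt_one (norm_pos_iff.2 h1)]
    apply lt_of_pow_lt_pow_left₀ 2 (norm_nonneg _)
    rw [← Complex.normSq_eq_norm_sq, ← Complex.normSq_eq_norm_sq, Complex.normSq_apply, Complex.normSq_apply]
    simp only [Complex.sub_re, Complex.sub_im, Complex.add_re, Complex.add_im, Complex.conj_re, Complex.conj_im]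
    have := mul_pos hm (hp v hv)
    nlinarith
  have h1 := Complex.norm_le_norm_of_mapsTo_ball hd (hmaps.mono_right ball_subset_closedBall) (by simp [hμ]) hv
  have hvb : v ∈ ball (0 : ℂ) 1 := mem_ball_zero_iff.2 hv
  rw [norm_div, div_le_iff₀ (norm_pos_iff.2 (hne v hvb))] at h1
  have h2 := norm_add_le (q v) ((starRingEnd ℂ) μ)
  rw [RCLike.norm_conj, h0] at h2
  have h3 := norm_sub_norm_le (q v) μ
  rw [h0] at h3
  nlinarith [norm_nonneg v]

theorem Dat.q_ne (D : Dat μ q G) {v : ℂ} (hv : v ∈ ball (0 : ℂ) 1) : q v ≠ 0 := by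
  intro h
  have := D.pos v hv
  rw [h] at this
  simp at this

theorem Dat.inv_pos (D : Dat μ q G) {v : ℂ} (hv : v ∈ ball (0 : ℂ) 1) : 0 < ((q v)⁻¹).re := by
  rw [Complex.inv_re]
  exact div_pos (D.pos v hv) (Complex.normSq_pos.2 (D.q_ne hv))

theorem Dat.q_le (D : Dat μ q G) {v : ℂ} (hv : ‖v‖ < 1) : ‖q v‖ ≤ 2 / (1 - ‖v‖) := by
  have h := pos_le D.dq D.pos (by rw [D.q0, D.mu]) hv
  rw [le_div_iff₀ (by linarith)]
  linarith

theorem Dat.qinv_le (D : Dat μ q G) {v : ℂ} (hv : ‖v‖ < 1) : ‖q v‖⁻¹ ≤ 2 / (1 - ‖v‖) := by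
  have hd : DifferentiableOn ℂ (fun v => (q v)⁻¹) (ball 0 1) := D.dq.inv fun v hv => D.q_ne hv
  have h := pos_le hd (fun v hv => D.inv_pos hv) (by rw [norm_inv, D.q0, D.mu, inv_one]) hv
  rw [le_div_iff₀ (by linarith), ← norm_inv]
  linarith

end

end Pool.Agent.Z55M
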