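import Mathlib
import Pool.Agent.Z55M.Mean2

/-! The derivative of the mean of `A conj B` over a circle. -/

set_option autoImplicit false
open Complex Metric Set Filter Topology MeasureTheory

namespace Pool.Agent.Z55M

theorem cm_rad (r θ : ℝ) : HasDerivAt (fun x : ℝ => circleMap 0 x θ) (Complex.exp (θ * I)) r := by
  have h1 : HasDerivAt (fun x : ℝ => (x : ℂ)) 1 r := Complex.ofRealCLM.hasDerivAt
  have h2 := h1.mul_const (Complex.exp (θ * I))
  rw [one_mul] at h2
  refine h2.congr_of_eventuallyEq (Eventually.of_forall fun x => ?_)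
  simp [circleMap_zero]

theorem cm_ang (r θ : ℝ) : HasDerivAt (fun θ : ℝ => circleMap 0 r θ) (circleMap 0 r θ * I) θ :=
  hasDerivAt_circleMap 0 r θ

section

variable {A B : ℂ → ℂ}

theorem cm_mem' {r : ℝ} (h0 : 0 < r) (h1 : r < 1) (θ : ℝ) : circleMap 0 r θ ∈ ball (0 : ℂ) 1 := by
  rw [mem_ball_zero_iff, norm_circleMap_zero, abs_of_pos h0]
  exact h1

theorem cm_contf {F : ℂ → ℂ} (hF : ContinuousOn F (ball 0 1)) {r : ℝ} (h0 : 0 < r) (h1 : r < 1) :
    Continuous fun θ => F (circleMap 0 r θ) := by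
  rw [← continuousOn_univ]
  exact hF.comp (continuous_circleMap 0 r).continuousOn fun θ _ => cm_mem' h0 h1 θ

/-- integration by parts on the circle -/
theorem circ_parts (hA : DifferentiableOn ℂ A (ball 0 1)) (hB : DifferentiableOn ℂ B (ball 0 1)) {r : ℝ}
    (h0 : 0 < r) (h1 : r < 1) :
    ∫ θ in (0:ℝ)..(2 * Real.pi), (circleMap 0 r θ * deriv A (circleMap 0 r θ)) * (starRingEnd ℂ) (B (circleMap 0 r θ)) =
      ∫ θ in (0:ℝ)..(2 * Real.pi), A (circleMap 0 r θ) * (starRingEnd ℂ) (circleMap 0 r θ * deriv B (circleMap 0 r θ)) := by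
  have hcA := cm_contf hA.continuousOn h0 h1
  have hcB := cm_contf hB.continuousOn h0 h1
  have hcA' := cm_contf (hA.deriv isOpen_ball).continuousOn h0 h1
  have hcB' := cm_contf (hB.deriv isOpen_ball).continuousOn h0 h1
  have hcm : Continuous fun θ => circleMap 0 r θ := continuous_circleMap 0 r
  have hcj := Complex.continuous_conj
  have c1 : Continuous fun θ => (circleMap 0 r θ * deriv A (circleMap 0 r θ)) * (starRingEnd ℂ) (B (circleMap 0 r θ)) :=
    (hcm.mul hcA').mul (hcj.comp hcB)
  have c2 : Continuous fun θ => A (circleMap 0 r θ) * (starRingEnd ℂ) (circleMap 0 r θ * deriv B (circleMap 0 r θ)) :=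
    hcA.mul (hcj.comp (hcm.mul hcB'))
  have hd : ∀ θ : ℝ, HasDerivAt (fun θ => A (circleMap 0 r θ) * (starRingEnd ℂ) (B (circleMap 0 r θ)))
      (I * ((circleMap 0 r θ * deriv A (circleMap 0 r θ)) * (starRingEnd ℂ) (B (circleMap 0 r θ)) -
        A (circleMap 0 r θ) * (starRingEnd ℂ) (circleMap 0 r θ * deriv B (circleMap 0 r θ)))) θ := by
    intro θ
    have hm := cm_mem' h0 h1 θ
    have a1 : HasDerivAt (fun θ => A (circleMap 0 r θ)) (deriv A (circleMap 0 r θ) * (circleMap 0 r θ * I)) θ :=
      ((hA.differentiableAt (isOpen_ball.mem_nhds hm)).hasDerivAt).comp θ (cm_ang r θ)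
    have b1 : HasDerivAt (fun θ => B (circleMap 0 r θ)) (deriv B (circleMap 0 r θ) * (circleMap 0 r θ * I)) θ :=
      ((hB.differentiableAt (isOpen_ball.mem_nhds hm)).hasDerivAt).comp θ (cm_ang r θ)
    have b2 : HasDerivAt (fun θ => (starRingEnd ℂ) (B (circleMap 0 r θ)))
        ((starRingEnd ℂ) (deriv B (circleMap 0 r θ) * (circleMap 0 r θ * I))) θ :=
      (Complex.conjCLE : ℂ →L[ℝ] ℂ).hasFDerivAt.comp_hasDerivAt θ b1
    refine (a1.mul b2).congr_deriv ?_
    simp only [map_mul, Complex.conj_I]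
    ring
  have hper : A (circleMap 0 r (2 * Real.pi)) * (starRingEnd ℂ) (B (circleMap 0 r (2 * Real.pi))) =
      A (circleMap 0 r 0) * (starRingEnd ℂ) (B (circleMap 0 r 0)) := by
    have : circleMap 0 r (2 * Real.pi) = circleMap 0 r 0 := by
      have := periodic_circleMap 0 r 0
      rwa [zero_add] at this
    rw [this]
  have h2 := intervalIntegral.integral_eq_sub_of_hasDerivAt (a := 0) (b := 2 * Real.pi) (fun θ _ => hd θ)
    ((continuous_const.mul (c1.sub c2)).intervalIntegrable _ _)
  rw [hper, sub_self, intervalIntegral.integral_const_mul, mul_eq_zero] at h2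
  have h3 := h2.resolve_left I_ne_zero
  rw [intervalIntegral.integral_sub (c1.intervalIntegrable _ _) (c2.intervalIntegrable _ _), sub_eq_zero] at h3
  exact h3

/-- **the derivative of the mean** -/
theorem av_deriv (hA : DifferentiableOn ℂ A (ball 0 1)) (hB : DifferentiableOn ℂ B (ball 0 1)) {r : ℝ}
    (h0 : 0 < r) (h1 : r < 1) :
    HasDerivAt (fun r => Real.circleAverage (fun v => A v * (starRingEnd ℂ) (B v)) 0 r)
      ((2 / r : ℝ) * Real.circleAverage (fun v => A v * (starRingEnd ℂ) (v * deriv B v)) 0 r) r := by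
  have hcj := Complex.continuous_conj
  set ρ : ℝ := (1 + r) / 2 with hρ
  have hρ1 : ρ < 1 := by rw [hρ]; linarith
  have hrρ : r < ρ := by rw [hρ]; linarith
  set ε : ℝ := min (r / 2) ((1 - r) / 2) with hε
  have hε0 : 0 < ε := lt_min (by linarith) (by linarith)
  have hball : ∀ x ∈ ball r ε, 0 < x ∧ x ≤ ρ := by
    intro x hx
    rw [mem_ball, Real.dist_eq, abs_lt] at hx
    have e1 : ε ≤ r / 2 := min_le_left _ _
    have e2 : ε ≤ (1 - r) / 2 := min_le_right _ _
    constructor
    · linarith [hx.1]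
    · rw [hρ]; linarith [hx.2]
  set F' : ℝ → ℝ → ℂ := fun x θ => Complex.exp (θ * I) * deriv A (circleMap 0 x θ) * (starRingEnd ℂ) (B (circleMap 0 x θ)) +
    A (circleMap 0 x θ) * (starRingEnd ℂ) (Complex.exp (θ * I) * deriv B (circleMap 0 x θ)) with hF'
  obtain ⟨M1, hM1⟩ := (isCompact_closedBall (0:ℂ) ρ).exists_bound_of_continuousOn
    (hA.continuousOn.mono (closedBall_subset_ball hρ1))
  obtain ⟨M2, hM2⟩ := (isCompact_closedBall (0:ℂ) ρ).exists_bound_of_continuousOn
    (hB.continuousOn.mono (closedBall_subset_ball hρ1))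
  obtain ⟨M3, hM3⟩ := (isCompact_closedBall (0:ℂ) ρ).exists_bound_of_continuousOn
    ((hA.deriv isOpen_ball).continuousOn.mono (closedBall_subset_ball hρ1))
  obtain ⟨M4, hM4⟩ := (isCompact_closedBall (0:ℂ) ρ).exists_bound_of_continuousOn
    ((hB.deriv isOpen_ball).continuousOn.mono (closedBall_subset_ball hρ1))
  have hmem : ∀ x ∈ ball r ε, ∀ θ : ℝ, circleMap 0 x θ ∈ closedBall (0:ℂ) ρ := by
    intro x hx θ
    rw [mem_closedBall_zero_iff, norm_circleMap_zero, abs_of_pos (hball x hx).1]
    exact (hball x hx).2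
  have hcF : ∀ x : ℝ, 0 < x → x < 1 → Continuous fun θ => A (circleMap 0 x θ) * (starRingEnd ℂ) (B (circleMap 0 x θ)) :=
    fun x hx hx1 => (cm_contf hA.continuousOn hx hx1).mul (hcj.comp (cm_contf hB.continuousOn hx hx1))
  have hexpc : Continuous fun θ : ℝ => Complex.exp (θ * I) := by fun_prop
  have hcF' : ∀ x : ℝ, 0 < x → x < 1 → Continuous (F' x) := by
    intro x hx hx1
    have a := cm_contf hA.continuousOn hx hx1
    have b := cm_contf hB.continuousOn hx hx1
    have a' := cm_contf (hA.deriv isOpen_ball).continuousOn hx hx1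
    have b' := cm_contf (hB.deriv isOpen_ball).continuousOn hx hx1
    exact ((hexpc.mul a').mul (hcj.comp b)).add (a.mul (hcj.comp (hexpc.mul b')))
  have key : HasDerivAt (fun x => ∫ θ in (0:ℝ)..(2 * Real.pi), A (circleMap 0 x θ) * (starRingEnd ℂ) (B (circleMap 0 x θ)))
      (∫ θ in (0:ℝ)..(2 * Real.pi), F' r θ) r := by
    refine (intervalIntegral.hasDerivAt_integral_of_dominated_loc_of_deriv_le
      (F := fun x θ => A (circleMap 0 x θ) * (starRingEnd ℂ) (B (circleMap 0 x θ)))
      (F' := F') (bound := fun _ => M3 * M2 + M1 * M4) (ball_mem_nhds r hε0) ?_ ?_ ?_ ?_ ?_ ?_).2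
    · filter_upwards [ball_mem_nhds r hε0] with x hx
      have := hball x hx
      exact (hcF x this.1 (by linarith)).aestronglyMeasurable
    · exact (hcF r h0 h1).intervalIntegrable _ _
    · exact (hcF' r h0 h1).aestronglyMeasurable
    · filter_upwards with θ _ x hx
      have hm := hmem x hx θ
      simp only [hF']
      refine (norm_add_le _ _).trans ?_
      simp only [norm_mul, RCLike.norm_conj, Complex.norm_exp_ofReal_mul_I, one_mul]
      have n1 := hM1 _ hm
      have n2 := hM2 _ hm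
      have n3 := hM3 _ hm
      have n4 := hM4 _ hm
      have p1 := norm_nonneg (A (circleMap 0 x θ))
      have p3 := norm_nonneg (deriv A (circleMap 0 x θ))
      have p2 := norm_nonneg (B (circleMap 0 x θ))
      have p4 := norm_nonneg (deriv B (circleMap 0 x θ))
      exact add_le_add (mul_le_mul n3 n2 p2 (p3.trans n3)) (mul_le_mul n1 n4 p4 (p1.trans n1))
    · exact intervalIntegrable_const
    · filter_upwards with θ _ x hx
      have hxb := hball x hx
      have hm := cm_mem' hxb.1 (by linarith : x < 1) θ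
      have a1 : HasDerivAt (fun x : ℝ => A (circleMap 0 x θ)) (deriv A (circleMap 0 x θ) * Complex.exp (θ * I)) x :=
        ((hA.differentiableAt (isOpen_ball.mem_nhds hm)).hasDerivAt).comp x (cm_rad x θ)
      have b1 : HasDerivAt (fun x : ℝ => B (circleMap 0 x θ)) (deriv B (circleMap 0 x θ) * Complex.exp (θ * I)) x :=
        ((hB.differentiableAt (isOpen_ball.mem_nhds hm)).hasDerivAt).comp x (cm_rad x θ)
      have b2 : HasDerivAt (fun x : ℝ => (starRingEnd ℂ) (B (circleMap 0 x θ)))
          ((starRingEnd ℂ) (deriv B (circleMap 0 x θ) * Complex.exp (θ * I))) x :=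
        (Complex.conjCLE : ℂ →L[ℝ] ℂ).hasFDerivAt.comp_hasDerivAt x b1
      refine (a1.mul b2).congr_deriv ?_
      simp only [hF', map_mul]
      ring
  have e1 : (∫ θ in (0:ℝ)..(2 * Real.pi), F' r θ) = (2 / r : ℝ) *
      ∫ θ in (0:ℝ)..(2 * Real.pi), A (circleMap 0 r θ) * (starRingEnd ℂ) (circleMap 0 r θ * deriv B (circleMap 0 r θ)) := by
    have hparts := circ_parts hA hB h0 h1
    have hr : (r : ℂ) ≠ 0 := by exact_mod_cast h0.ne'
    have a := cm_contf hA.continuousOn h0 h1
    have b := cm_contf hB.continuousOn h0 h1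
    have a' := cm_contf (hA.deriv isOpen_ball).continuousOn h0 h1
    have b' := cm_contf (hB.deriv isOpen_ball).continuousOn h0 h1
    have hcm : Continuous fun θ => circleMap 0 r θ := continuous_circleMap 0 r
    have c1 : Continuous fun θ => (circleMap 0 r θ * deriv A (circleMap 0 r θ)) * (starRingEnd ℂ) (B (circleMap 0 r θ)) :=
      (hcm.mul a').mul (hcj.comp b)
    have c2 : Continuous fun θ => A (circleMap 0 r θ) * (starRingEnd ℂ) (circleMap 0 r θ * deriv B (circleMap 0 r θ)) :=
      a.mul (hcj.comp (hcm.mul b'))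
    have e2 : ∀ θ : ℝ, F' r θ = (r : ℂ)⁻¹ *
        ((circleMap 0 r θ * deriv A (circleMap 0 r θ)) * (starRingEnd ℂ) (B (circleMap 0 r θ)) +
        A (circleMap 0 r θ) * (starRingEnd ℂ) (circleMap 0 r θ * deriv B (circleMap 0 r θ))) := by
      intro θ
      have e3 : Complex.exp (θ * I) = (r : ℂ)⁻¹ * circleMap 0 r θ := by
        rw [circleMap_zero]
        field_simp
      simp only [hF']
      rw [e3]
      simp only [map_mul, map_inv₀, Complex.conj_ofReal]
      ring
    simp only [e2]
    rw [intervalIntegral.integral_const_mul, intervalIntegral.integral_add (c1.intervalIntegrable _ _)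
      (c2.intervalIntegrable _ _), hparts]
    push_cast
    field_simp
    ring
  rw [e1] at key
  have key2 := key.const_smul ((2 * Real.pi)⁻¹)
  refine key2.congr_deriv ?_
  unfold Real.circleAverage
  simp only [Complex.real_smul]
  ring

end

end Pool.Agent.Z55M
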