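import Mathlib
import Pool.Agent.Z55M.Deriv

/-! The means of `exp (τ G) q ^ σ`. -/

set_option autoImplicit false
open Complex Metric Set Filter Topology MeasureTheory

namespace Pool.Agent.Z55M

section

variable {μ : ℂ} {q G : ℂ → ℂ}

/-- the inner average is circle integrable -/
theorem Dat.ci (D : Dat μ q G) {r s : ℝ} (hr : 0 < r) (hrs : r < s) (hs1 : s < 1) (κ : ℝ) :
    CircleIntegrable (fun v => Real.circleAverage (fun ζ => ‖1 - v / ζ‖ ^ (-κ) * ((q ζ).re / μ.re)) 0 s) 0 r := by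
  have hs := hr.trans hrs
  apply Continuous.intervalIntegrable
  have hsa : |s| < 1 := by rwa [abs_of_pos hs]
  show Continuous fun θ => Real.circleAverage (fun ζ => ‖1 - circleMap 0 r θ / ζ‖ ^ (-κ) *
    ((q ζ).re / μ.re)) 0 s
  unfold Real.circleAverage
  simp only [smul_eq_mul]
  apply continuous_const.mul
  apply intervalIntegral.continuous_parametric_intervalIntegral_of_continuous'
  show Continuous fun p : ℝ × ℝ => ‖1 - circleMap 0 r p.1 / circleMap 0 s p.2‖ ^ (-κ) *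
    ((q (circleMap 0 s p.2)).re / μ.re)
  apply Continuous.mul
  · apply Continuous.rpow_const
    · apply Continuous.norm
      apply continuous_const.sub
      apply Continuous.div
      · exact (continuous_circleMap 0 r).comp continuous_fst
      · exact (continuous_circleMap 0 s).comp continuous_snd
      · intro p
        rw [← norm_pos_iff, norm_circleMap_zero, abs_of_pos hs]
        exact hs
    · intro p
      left
      intro h
      have := pos_sub hr hrs p.1 p.2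
      rw [norm_eq_zero.1 h] at this
      simp at this
  · apply Continuous.div_const
    exact Complex.continuous_re.comp ((cm_cont_q D hsa).comp continuous_snd)

theorem sub_norm_pos {s : ℝ} (hs : 0 < s) {v ζ : ℂ} (hv : ‖v‖ < s) (hζ : ‖ζ‖ = s) : 0 < ‖1 - v / ζ‖ := by
  rw [norm_pos_iff]
  intro h
  have := slit_pot hs hv hζ
  rw [h] at this
  simp at this

/-- the inner integrand is circle integrable -/
theorem Dat.ci2 (D : Dat μ q G) {s : ℝ} (hs : 0 < s) (hs1 : s < 1) {v : ℂ} (hv : ‖v‖ < s) (κ : ℝ) :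
    CircleIntegrable (fun ζ => ‖1 - v / ζ‖ ^ (-κ) * ((q ζ).re / μ.re)) 0 s := by
  have hsa : |s| < 1 := by rwa [abs_of_pos hs]
  apply ContinuousOn.circleIntegrable'
  apply ContinuousOn.mul _ (D.wcont.mono (sphere_sub hsa))
  apply ContinuousOn.rpow_const
  · apply ContinuousOn.norm
    apply continuousOn_const.sub
    exact continuousOn_const.div continuousOn_id fun ζ hζ => sphere_ne0 hs hζ
  · intro ζ hζ
    left
    rw [mem_sphere_zero_iff_norm, abs_of_pos hs] at hζ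
    exact (sub_norm_pos hs hv hζ).ne'

theorem max_ineq {x y b σ : ℝ} (hx : 0 ≤ x) (hy : 0 < y) (h0 : 0 ≤ σ) (h1 : σ ≤ b) :
    x ^ (b - σ) * y ^ σ ≤ x ^ b + y ^ b := by
  have hb : 0 ≤ b := h0.trans h1
  rcases le_total x y with h | h
  · have h2 : x ^ (b - σ) ≤ y ^ (b - σ) := Real.rpow_le_rpow hx h (by linarith)
    calc x ^ (b - σ) * y ^ σ ≤ y ^ (b - σ) * y ^ σ := mul_le_mul_of_nonneg_right h2 (by positivity)
      _ = y ^ b := by rw [← Real.rpow_add hy]; congr 1; ring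
      _ ≤ _ := le_add_of_nonneg_left (by positivity)
  · have hx0 : 0 < x := hy.trans_le h
    have h2 : y ^ σ ≤ x ^ σ := Real.rpow_le_rpow hy.le h h0
    calc x ^ (b - σ) * y ^ σ ≤ x ^ (b - σ) * x ^ σ := mul_le_mul_of_nonneg_left h2 (by positivity)
      _ = x ^ b := by rw [← Real.rpow_add hx0]; congr 1; ring
      _ ≤ _ := le_add_of_nonneg_right (by positivity)

theorem Dat.cexp (D : Dat μ q G) (τ : ℂ) : ContinuousOn (fun v => ‖Complex.exp (τ * G v)‖) (ball 0 1) :=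
  (Complex.continuous_exp.comp_continuousOn (continuousOn_const.mul D.dG.continuousOn)).norm

theorem Dat.cq (D : Dat μ q G) (σ : ℝ) : ContinuousOn (fun v => ‖q v‖ ^ σ) (ball 0 1) :=
  D.dq.continuousOn.norm.rpow_const fun _ hv => Or.inl (norm_ne_zero_iff.2 (D.q_ne hv))

/-- **the case of a nonnegative real part** -/
theorem Dat.mean_nonneg (D : Dat μ q G) {τ : ℂ} (hb : ‖τ‖ < 1) (hσ : 0 ≤ τ.re) {r : ℝ} (hr : 0 < r) (hr1 : r < 1) :
    Real.circleAverage (fun v => ‖Complex.exp (τ * G v)‖ * ‖q v‖ ^ τ.re) 0 r ≤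
      Kc ‖τ‖ * (2 / Real.cos (‖τ‖ * (Real.pi / 2))) := by
  set b := ‖τ‖ with hbd
  set σ := τ.re with hσd
  have hb0 : 0 ≤ b := norm_nonneg _
  have hσb : σ ≤ b := Complex.re_le_norm τ
  set s : ℝ := (1 + r) / 2 with hs
  have hrs : r < s := by rw [hs]; linarith
  have hs1 : s < 1 := by rw [hs]; linarith
  have hs0 : 0 < s := hr.trans hrs
  have hsa : |s| < 1 := by rwa [abs_of_pos hs0]
  have hra : |r| < 1 := by rwa [abs_of_pos hr]
  have hq1 : ‖q 0‖ = 1 := by rw [D.q0, D.mu]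
  have hK := Kc_pos b
  have h1 : Real.circleAverage (fun v => ‖Complex.exp (τ * G v)‖ * ‖q v‖ ^ σ) 0 r ≤
      Real.circleAverage (fun v => Kc b * (Real.circleAverage (fun ζ => ‖1 - v / ζ‖ ^ (-b) * ((q ζ).re / μ.re)) 0 s +
        ‖q v‖ ^ b)) 0 r := by
    apply Real.circleAverage_mono
    · exact cint ((D.cexp τ).mul (D.cq σ)) hra
    · apply CircleIntegrable.const_fun_smul
      exact (D.ci hr hrs hs1 b).add (cint (D.cq b) hra)
    · intro v hv
      rw [mem_sphere_zero_iff_norm, abs_of_pos hr] at hv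
      have hvs : ‖v‖ < s := by rw [hv]; exact hrs
      have hvb : v ∈ ball (0 : ℂ) 1 := by rw [mem_ball_zero_iff, hv]; exact hr1
      have hqv : 0 < ‖q v‖ := norm_pos_iff.2 (D.q_ne hvb)
      have h2 := D.exp_le hs0 hs1 hvs τ
      have h3 : Real.circleAverage (fun ζ => ‖1 - v / ζ‖ ^ (-(b - σ)) * ((q ζ).re / μ.re)) 0 s * ‖q v‖ ^ σ ≤
          Real.circleAverage (fun ζ => ‖1 - v / ζ‖ ^ (-b) * ((q ζ).re / μ.re)) 0 s + ‖q v‖ ^ b := by
        have e1 : Real.circleAverage (fun ζ => ‖1 - v / ζ‖ ^ (-b) * ((q ζ).re / μ.re)) 0 s + ‖q v‖ ^ b =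
            Real.circleAverage (fun ζ => ‖1 - v / ζ‖ ^ (-b) * ((q ζ).re / μ.re) + ‖q v‖ ^ b * ((q ζ).re / μ.re)) 0 s := by
          rw [Real.circleAverage_fun_add (D.ci2 hs0 hs1 hvs b), av_mulr, D.wav hsa, mul_one]
          exact (cint D.wcont hsa).const_fun_smul
        rw [e1, mul_comm, ← av_mulr]
        apply Real.circleAverage_mono
        · exact (D.ci2 hs0 hs1 hvs _).const_fun_smul
        · exact (D.ci2 hs0 hs1 hvs b).add ((cint D.wcont hsa).const_fun_smul)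
        · intro ζ hζ
          have hζb := sphere_sub hsa hζ
          rw [mem_sphere_zero_iff_norm, abs_of_pos hs0] at hζ
          have hn := sub_norm_pos hs0 hvs hζ
          have hw : 0 ≤ (q ζ).re / μ.re := div_nonneg (D.pos ζ hζb).le D.mre.le
          have h4 := max_ineq (x := ‖1 - v / ζ‖⁻¹) (y := ‖q v‖) (b := b) (σ := σ) (by positivity) hqv hσ hσb
          rw [Real.inv_rpow hn.le, Real.inv_rpow hn.le, ← Real.rpow_neg hn.le, ← Real.rpow_neg hn.le] at h4
          have h5 := mul_le_mul_of_nonneg_right h4 hw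
          refine le_trans (le_of_eq ?_) (h5.trans (le_of_eq ?_))
          · ring
          · ring
      calc ‖Complex.exp (τ * G v)‖ * ‖q v‖ ^ σ ≤
          (Kc b * Real.circleAverage (fun ζ => ‖1 - v / ζ‖ ^ (-(b - σ)) * ((q ζ).re / μ.re)) 0 s) * ‖q v‖ ^ σ :=
            mul_le_mul_of_nonneg_right h2 (by positivity)
        _ = Kc b * (Real.circleAverage (fun ζ => ‖1 - v / ζ‖ ^ (-(b - σ)) * ((q ζ).re / μ.re)) 0 s * ‖q v‖ ^ σ) := by ring
        _ ≤ _ := mul_le_mul_of_nonneg_left h3 hK.le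
  refine h1.trans ?_
  rw [av_mulr]
  apply mul_le_mul_of_nonneg_left _ hK.le
  rw [Real.circleAverage_fun_add (D.ci hr hrs hs1 b) (cint (D.cq b) hra), D.avk hr hrs hs1]
  have h6 := kern_lt hb0 hb (r := r / s) (by
    rw [abs_of_pos (div_pos hr hs0)]
    exact (div_lt_one hs0).2 hrs)
  have h7 := mean_pos D.dq D.pos hb0 hb hra
  rw [hq1, Real.one_rpow] at h7
  calc _ ≤ 1 / Real.cos (b * (Real.pi / 2)) + 1 / Real.cos (b * (Real.pi / 2)) := add_le_add h6 h7
    _ = _ := by ring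

/-- small radii -/
theorem Dat.small (D : Dat μ q G) {τ : ℂ} (hb : ‖τ‖ < 1) {v : ℂ} (hv : ‖v‖ ≤ 1 / 2) :
    ‖Complex.exp (τ * G v)‖ ≤ 9 * Kc ‖τ‖ := by
  have hs0 : (0 : ℝ) < 3 / 4 := by norm_num
  have hs1 : (3 / 4 : ℝ) < 1 := by norm_num
  have hsa : |(3 / 4 : ℝ)| < 1 := by rwa [abs_of_pos hs0]
  have hvs : ‖v‖ < 3 / 4 := by linarith
  have h1 := D.exp_le hs0 hs1 hvs τ
  have hK := Kc_pos ‖τ‖
  have hσb : τ.re ≤ ‖τ‖ := Complex.re_le_norm τ
  have hσb' : -‖τ‖ ≤ τ.re := (abs_le.1 (Complex.abs_re_le_norm τ)).1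
  refine h1.trans ?_
  rw [mul_comm 9]
  apply mul_le_mul_of_nonneg_left _ hK.le
  have e : (9 : ℝ) = Real.circleAverage (fun ζ => 9 * ((q ζ).re / μ.re)) 0 (3 / 4) := by
    rw [av_mulr, D.wav hsa, mul_one]
  rw [e]
  apply Real.circleAverage_mono
  · exact D.ci2 hs0 hs1 hvs _
  · exact (cint D.wcont hsa).const_fun_smul
  · intro ζ hζ
    have hζb := sphere_sub hsa hζ
    rw [mem_sphere_zero_iff_norm, abs_of_pos hs0] at hζ
    have hw : 0 ≤ (q ζ).re / μ.re := div_nonneg (D.pos ζ hζb).le D.mre.le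
    apply mul_le_mul_of_nonneg_right _ hw
    have hn : 1 / 3 ≤ ‖1 - v / ζ‖ := by
      have h2 := norm_sub_norm_le (1 : ℂ) (v / ζ)
      rw [norm_one, norm_div, hζ] at h2
      have h3 : ‖v‖ / (3 / 4) ≤ 2 / 3 := by
        rw [div_le_iff₀ hs0]
        linarith
      linarith
    have hn0 : 0 < ‖1 - v / ζ‖ := by linarith
    rw [Real.rpow_neg hn0.le, ← Real.inv_rpow hn0.le]
    have h4 : ‖1 - v / ζ‖⁻¹ ≤ 3 := by
      rw [inv_le_comm₀ hn0 (by norm_num)]
      linarith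
    calc ‖1 - v / ζ‖⁻¹ ^ (‖τ‖ - τ.re) ≤ 3 ^ (‖τ‖ - τ.re) :=
          Real.rpow_le_rpow (by positivity) h4 (by linarith)
      _ ≤ 3 ^ (2 : ℝ) := Real.rpow_le_rpow_of_exponent_le (by norm_num) (by linarith)
      _ = 9 := by norm_num

end

end Pool.Agent.Z55M
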