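import Mathlib
import Pool.Agent.Z55M.Grow

/-! The means of `exp (τ G) q ^ σ` for negative `σ`. -/

set_option autoImplicit false
open Complex Metric Set Filter Topology MeasureTheory

namespace Pool.Agent.Z55M

section

variable {μ : ℂ} {q G : ℂ → ℂ}

/-- the mean `Z r` of `|exp (τ G)| |q| ^ (1 - β)` -/
theorem Dat.zmean (D : Dat μ q G) {τ : ℂ} {β : ℝ} (hβ : τ.re = -β) (hβ0 : 0 < β) (hβ1 : β < 1) {κ : ℝ}
    (hκ1 : 1 < κ) (hκ2 : κ < 2) (hκ : ‖τ‖ + β ≤ κ) {r : ℝ} (hr : 0 < r) (hr1 : r < 1) :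
    Real.circleAverage (fun v => ‖Complex.exp (τ * G v)‖ * ‖q v‖ ^ (1 - β)) 0 r ≤
      (4 * Kc ‖τ‖ / Real.cos ((2 - κ) * (Real.pi / 2))) * (2 / (1 - r)) ^ (κ - β) := by
  set b := ‖τ‖ with hbd
  have hb0 : 0 ≤ b := norm_nonneg _
  set s : ℝ := (1 + r) / 2 with hs
  have hrs : r < s := by rw [hs]; linarith
  have hs1 : s < 1 := by rw [hs]; linarith
  have hs0 : 0 < s := hr.trans hrs
  have hsa : |s| < 1 := by rwa [abs_of_pos hs0]
  have hra : |r| < 1 := by rwa [abs_of_pos hr]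
  have hK := Kc_pos b
  have hcos : 0 < Real.cos ((2 - κ) * (Real.pi / 2)) := cos_pos' (by linarith) (by linarith)
  have h2r : 0 < 2 / (1 - r) := div_pos two_pos (by linarith)
  -- pointwise bound
  have h1 : Real.circleAverage (fun v => ‖Complex.exp (τ * G v)‖ * ‖q v‖ ^ (1 - β)) 0 r ≤
      Real.circleAverage (fun v => (4 * Kc b * (2 / (1 - r)) ^ (1 - β)) *
        Real.circleAverage (fun ζ => ‖1 - v / ζ‖ ^ (-κ) * ((q ζ).re / μ.re)) 0 s) 0 r := by
    apply Real.circleAverage_mono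
    · exact cint ((D.cexp τ).mul (D.cq _)) hra
    · exact (D.ci hr hrs hs1 κ).const_fun_smul
    · intro v hv
      rw [mem_sphere_zero_iff_norm, abs_of_pos hr] at hv
      have hvs : ‖v‖ < s := by rw [hv]; exact hrs
      have hvb : v ∈ ball (0 : ℂ) 1 := by rw [mem_ball_zero_iff, hv]; exact hr1
      have h2 := D.exp_le hs0 hs1 hvs τ
      have h3 : ‖q v‖ ^ (1 - β) ≤ (2 / (1 - r)) ^ (1 - β) := by
        apply Real.rpow_le_rpow (norm_nonneg _) _ (by linarith)
        have := D.q_le (v := v) (by rw [hv]; exact hr1)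
        rwa [hv] at this
      have h4 : Real.circleAverage (fun ζ => ‖1 - v / ζ‖ ^ (-(b - τ.re)) * ((q ζ).re / μ.re)) 0 s ≤
          4 * Real.circleAverage (fun ζ => ‖1 - v / ζ‖ ^ (-κ) * ((q ζ).re / μ.re)) 0 s := by
        rw [← av_mulr]
        apply Real.circleAverage_mono
        · exact D.ci2 hs0 hs1 hvs _
        · exact (D.ci2 hs0 hs1 hvs κ).const_fun_smul
        · intro ζ hζ
          have hζb := sphere_sub hsa hζ
          rw [mem_sphere_zero_iff_norm, abs_of_pos hs0] at hζ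
          have hn := sub_norm_pos hs0 hvs hζ
          have hn2 : ‖1 - v / ζ‖ ≤ 2 := by
            refine (norm_sub_le _ _).trans ?_
            rw [norm_one, norm_div, hζ]
            have : ‖v‖ / s ≤ 1 := (div_le_one hs0).2 hvs.le
            linarith
          have hw : 0 ≤ (q ζ).re / μ.re := div_nonneg (D.pos ζ hζb).le D.mre.le
          rw [← mul_assoc]
          apply mul_le_mul_of_nonneg_right _ hw
          have e1 : ‖1 - v / ζ‖ ^ (-(b - τ.re)) = ‖1 - v / ζ‖ ^ (κ - (b + β)) * ‖1 - v / ζ‖ ^ (-κ) := by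
            rw [← Real.rpow_add hn]
            congr 1
            rw [hβ]
            ring
          rw [e1]
          apply mul_le_mul_of_nonneg_right _ (by positivity)
          calc ‖1 - v / ζ‖ ^ (κ - (b + β)) ≤ 2 ^ (κ - (b + β)) :=
                Real.rpow_le_rpow hn.le hn2 (by linarith)
            _ ≤ 2 ^ (2 : ℝ) := Real.rpow_le_rpow_of_exponent_le (by norm_num) (by linarith)
            _ = 4 := by norm_num
      have hA0 : 0 ≤ Real.circleAverage (fun ζ => ‖1 - v / ζ‖ ^ (-(b - τ.re)) * ((q ζ).re / μ.re)) 0 s := by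
        apply Real.circleAverage_nonneg_of_nonneg
        intro ζ hζ
        have hζb := sphere_sub hsa hζ
        have hw : 0 ≤ (q ζ).re / μ.re := div_nonneg (D.pos ζ hζb).le D.mre.le
        positivity
      calc ‖Complex.exp (τ * G v)‖ * ‖q v‖ ^ (1 - β) ≤
          (Kc b * Real.circleAverage (fun ζ => ‖1 - v / ζ‖ ^ (-(b - τ.re)) * ((q ζ).re / μ.re)) 0 s) *
            (2 / (1 - r)) ^ (1 - β) := mul_le_mul h2 h3 (by positivity) (by positivity)
        _ ≤ (Kc b * (4 * Real.circleAverage (fun ζ => ‖1 - v / ζ‖ ^ (-κ) * ((q ζ).re / μ.re)) 0 s)) *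
            (2 / (1 - r)) ^ (1 - β) := by
              apply mul_le_mul_of_nonneg_right _ (by positivity)
              exact mul_le_mul_of_nonneg_left h4 hK.le
        _ = _ := by ring
  refine h1.trans ?_
  rw [av_mulr, D.avk hr hrs hs1]
  have hrs0 : 0 < r / s := div_pos hr hs0
  have hrs1 : r / s < 1 := (div_lt_one hs0).2 hrs
  have h5 := kern_gt hκ1 hκ2 hrs0 hrs1
  have h6 : (1 - r) / 2 ≤ 1 - (r / s) ^ 2 := by
    have e1 : (r / s) ^ 2 ≤ r / s := by nlinarith
    have e2 : r / s ≤ 1 - (1 - r) / 2 := by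
      rw [div_le_iff₀ hs0, hs]
      nlinarith
    linarith
  have h7 : (1 - (r / s) ^ 2) ^ (1 - κ) ≤ (2 / (1 - r)) ^ (κ - 1) := by
    have h8 : (2 / (1 - r)) ^ (κ - 1) = ((1 - r) / 2) ^ (1 - κ) := by
      rw [← inv_div, Real.inv_rpow (by linarith : 0 ≤ (1 - r) / 2), ← Real.rpow_neg (by linarith : 0 ≤ (1 - r) / 2)]
      congr 1
      ring
    rw [h8]
    apply Real.rpow_le_rpow_of_nonpos (by linarith) h6 (by linarith)
  calc (4 * Kc b * (2 / (1 - r)) ^ (1 - β)) * Real.circleAverage (fun u : ℂ => ‖1 - u‖ ^ (-κ)) 0 (r / s)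
      ≤ (4 * Kc b * (2 / (1 - r)) ^ (1 - β)) * ((1 - (r / s) ^ 2) ^ (1 - κ) / Real.cos ((2 - κ) * (Real.pi / 2))) :=
        mul_le_mul_of_nonneg_left h5 (by positivity)
    _ ≤ (4 * Kc b * (2 / (1 - r)) ^ (1 - β)) * ((2 / (1 - r)) ^ (κ - 1) / Real.cos ((2 - κ) * (Real.pi / 2))) := by
        apply mul_le_mul_of_nonneg_left _ (by positivity)
        exact div_le_div_of_nonneg_right h7 hcos.le
    _ = _ := by
        have : (2 / (1 - r)) ^ (κ - β) = (2 / (1 - r)) ^ (1 - β) * (2 / (1 - r)) ^ (κ - 1) := by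
          rw [← Real.rpow_add h2r]
          congr 1
          ring
        rw [this]
        ring

/-- the function `A` -/
noncomputable def fA (q G : ℂ → ℂ) (τ : ℂ) (β : ℝ) (v : ℂ) : ℂ :=
  Complex.exp (τ * G v / 2) * (q v)⁻¹ ^ (β : ℂ)

noncomputable def fB (G : ℂ → ℂ) (τ : ℂ) (v : ℂ) : ℂ := Complex.exp (τ * G v / 2)

theorem fA_diff (D : Dat μ q G) (τ : ℂ) (β : ℝ) : DifferentiableOn ℂ (fA q G τ β) (ball 0 1) := by
  apply DifferentiableOn.mul
  · exact ((D.dG.const_mul τ).div_const 2).cexp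
  · intro v hv
    exact ((D.dq v hv).inv (D.q_ne hv)).cpow_const (Or.inl (D.inv_pos hv))

theorem fB_diff (D : Dat μ q G) (τ : ℂ) : DifferentiableOn ℂ (fB G τ) (ball 0 1) :=
  ((D.dG.const_mul τ).div_const 2).cexp

theorem fB_deriv (D : Dat μ q G) (τ : ℂ) {v : ℂ} (hv : v ∈ ball (0 : ℂ) 1) :
    v * deriv (fB G τ) v = (τ / 2) * (1 - (starRingEnd ℂ) μ * q v) * fB G τ v := by
  have h1 : HasDerivAt G (deriv G v) v := (D.dG.differentiableAt (isOpen_ball.mem_nhds hv)).hasDerivAt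
  have h2 : HasDerivAt (fB G τ) (Complex.exp (τ * G v / 2) * (τ * deriv G v / 2)) v :=
    ((h1.const_mul τ).div_const 2).cexp
  rw [h2.deriv, fB]
  have h3 := D.eq v hv
  linear_combination (Complex.exp (τ * G v / 2) * τ / 2) * h3

theorem fAB (q G : ℂ → ℂ) (τ : ℂ) (β : ℝ) (v : ℂ) :
    fA q G τ β v * (starRingEnd ℂ) (fB G τ v) = (‖Complex.exp (τ * G v)‖ : ℂ) * (q v)⁻¹ ^ (β : ℂ) := by
  have h1 : Complex.exp (τ * G v / 2) * (starRingEnd ℂ) (Complex.exp (τ * G v / 2)) = (‖Complex.exp (τ * G v)‖ : ℂ) := by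
    rw [Complex.mul_conj, Complex.normSq_eq_norm_sq, Complex.norm_exp, Complex.norm_exp, ← Real.exp_nat_mul]
    congr 2
    have : (τ * G v / 2).re = (τ * G v).re / 2 := by
      rw [show (2 : ℂ) = ((2 : ℝ) : ℂ) by norm_num, Complex.div_ofReal_re]
    rw [this]
    push_cast
    ring
  rw [fA, fB, ← h1]
  ring

/-- `X r` -/
noncomputable def fX (q G : ℂ → ℂ) (τ : ℂ) (β : ℝ) (r : ℝ) : ℂ :=
  Real.circleAverage (fun v => fA q G τ β v * (starRingEnd ℂ) (fB G τ v)) 0 r

theorem norm_qinv (D : Dat μ q G) (β : ℝ) {v : ℂ} (hv : v ∈ ball (0 : ℂ) 1) :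
    ‖(q v)⁻¹ ^ (β : ℂ)‖ = ‖q v‖ ^ (-β) := by
  have h : 0 < ‖q v‖ := norm_pos_iff.2 (D.q_ne hv)
  rw [Complex.norm_cpow_real, norm_inv, Real.inv_rpow h.le, ← Real.rpow_neg h.le]

theorem fX_deriv (D : Dat μ q G) {τ : ℂ} {β : ℝ} {r : ℝ} (hr : 0 < r) (hr1 : r < 1) :
    ∃ e : ℂ, HasDerivAt (fX q G τ β) (e + ((starRingEnd ℂ) τ / r) * fX q G τ β r) r ∧
      ‖e‖ ≤ (‖τ‖ / r) * Real.circleAverage (fun v => ‖Complex.exp (τ * G v)‖ * ‖q v‖ ^ (1 - β)) 0 r := by
  have hra : |r| < 1 := by rwa [abs_of_pos hr]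
  have hcj := Complex.continuous_conj
  have hcA := (fA_diff D τ β).continuousOn
  have hcB := (fB_diff D τ).continuousOn
  have h1 := av_deriv (fA_diff D τ β) (fB_diff D τ) hr hr1
  have hra' : (r : ℂ) ≠ 0 := by exact_mod_cast hr.ne'
  have h2 : ∀ v ∈ sphere (0 : ℂ) |r|, fA q G τ β v * (starRingEnd ℂ) (v * deriv (fB G τ) v) =
      ((starRingEnd ℂ) τ / 2) * (fA q G τ β v * (starRingEnd ℂ) (fB G τ v)) +
      (-(((starRingEnd ℂ) τ / 2) * μ)) * (fA q G τ β v * (starRingEnd ℂ) (fB G τ v) * (starRingEnd ℂ) (q v)) := by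
    intro v hv
    rw [fB_deriv D τ (sphere_sub hra hv)]
    simp only [map_mul, map_sub, map_one, Complex.conj_conj, map_div₀]
    have : (starRingEnd ℂ) (2 : ℂ) = 2 := Complex.conj_ofNat 2
    rw [this]
    ring
  have hci1 : CircleIntegrable (fun v => fA q G τ β v * (starRingEnd ℂ) (fB G τ v)) 0 r :=
    cint (hcA.mul (hcj.comp_continuousOn hcB)) hra
  have hci2 : CircleIntegrable (fun v => fA q G τ β v * (starRingEnd ℂ) (fB G τ v) * (starRingEnd ℂ) (q v)) 0 r :=
    cint ((hcA.mul (hcj.comp_continuousOn hcB)).mul (hcj.comp_continuousOn D.dq.continuousOn)) hra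
  have h3 : Real.circleAverage (fun v => fA q G τ β v * (starRingEnd ℂ) (v * deriv (fB G τ) v)) 0 r =
      ((starRingEnd ℂ) τ / 2) * fX q G τ β r + (-(((starRingEnd ℂ) τ / 2) * μ)) *
        Real.circleAverage (fun v => fA q G τ β v * (starRingEnd ℂ) (fB G τ v) * (starRingEnd ℂ) (q v)) 0 r := by
    rw [Real.circleAverage_congr_sphere h2, Real.circleAverage_fun_add, av_mul, av_mul, fX]
    · exact hci1.const_fun_smul
    · exact hci2.const_fun_smul
  refine ⟨(-((starRingEnd ℂ) τ * μ / r)) *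
        Real.circleAverage (fun v => fA q G τ β v * (starRingEnd ℂ) (fB G τ v) * (starRingEnd ℂ) (q v)) 0 r, ?_, ?_⟩
  · refine h1.congr_deriv ?_
    rw [h3]
    push_cast
    field_simp
    ring
  · have h4 : ‖Real.circleAverage (fun v => fA q G τ β v * (starRingEnd ℂ) (fB G τ v) * (starRingEnd ℂ) (q v)) 0 r‖ ≤
        Real.circleAverage (fun v => ‖Complex.exp (τ * G v)‖ * ‖q v‖ ^ (1 - β)) 0 r := by
      have h5 : Real.circleAverage (fun v => ‖fA q G τ β v * (starRingEnd ℂ) (fB G τ v) * (starRingEnd ℂ) (q v)‖) 0 r =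
          Real.circleAverage (fun v => ‖Complex.exp (τ * G v)‖ * ‖q v‖ ^ (1 - β)) 0 r := by
        apply Real.circleAverage_congr_sphere
        intro v hv
        have hvb := sphere_sub hra hv
        have h : 0 < ‖q v‖ := norm_pos_iff.2 (D.q_ne hvb)
        simp only
        rw [fAB, norm_mul, norm_mul, norm_qinv D β hvb, RCLike.norm_conj, Complex.norm_real, norm_norm,
          mul_assoc]
        congr 1
        nth_rewrite 2 [← Real.rpow_one ‖q v‖]
        rw [← Real.rpow_add h]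
        congr 1
        ring
      rw [← h5]
      unfold Real.circleAverage
      rw [norm_smul, Real.norm_of_nonneg (by positivity), smul_eq_mul]
      apply mul_le_mul_of_nonneg_left _ (by positivity)
      exact intervalIntegral.norm_integral_le_integral_norm (by positivity)
    rw [norm_mul, norm_neg, norm_div, norm_mul, RCLike.norm_conj, D.mu, mul_one, Complex.norm_real,
      Real.norm_of_nonneg hr.le]
    exact mul_le_mul_of_nonneg_left h4 (by positivity)

end

end Pool.Agent.Z55M
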