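import Mathlib
import Pool.Agent.Z55M.Neg

/-! The means of `exp (τ G) q ^ σ` for negative `σ`, end of the proof. -/

set_option autoImplicit false
open Complex Metric Set Filter Topology MeasureTheory

namespace Pool.Agent.Z55M

section

variable {μ : ℂ} {q G : ℂ → ℂ}

theorem norm_av_le {F : ℂ → ℂ} {r : ℝ} :
    ‖Real.circleAverage F 0 r‖ ≤ Real.circleAverage (fun v => ‖F v‖) 0 r := by
  unfold Real.circleAverage
  rw [norm_smul, Real.norm_of_nonneg (by positivity), smul_eq_mul]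
  apply mul_le_mul_of_nonneg_left _ (by positivity)
  exact intervalIntegral.norm_integral_le_integral_norm (by positivity)

theorem fX_norm (D : Dat μ q G) {τ : ℂ} {β : ℝ} {r : ℝ} (hra : |r| < 1) :
    ‖fX q G τ β r‖ ≤ Real.circleAverage (fun v => ‖Complex.exp (τ * G v)‖ * ‖q v‖ ^ (-β)) 0 r := by
  refine norm_av_le.trans (le_of_eq ?_)
  apply Real.circleAverage_congr_sphere
  intro v hv
  have hvb := sphere_sub hra hv
  simp only
  rw [fAB, norm_mul, norm_qinv D β hvb, Complex.norm_real, norm_norm]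

theorem fX_re (D : Dat μ q G) {τ : ℂ} {β : ℝ} (h0 : 0 ≤ β) (h1 : β < 1) {r : ℝ} (hra : |r| < 1) :
    Real.circleAverage (fun v => ‖Complex.exp (τ * G v)‖ * ‖q v‖ ^ (-β)) 0 r ≤
      ‖fX q G τ β r‖ / Real.cos (β * (Real.pi / 2)) := by
  have hc := cos_pos' h0 h1
  rw [le_div_iff₀ hc, mul_comm]
  have hcj := Complex.continuous_conj
  have hcA := (fA_diff D τ β).continuousOn
  have hcB := (fB_diff D τ).continuousOn
  have hci1 : CircleIntegrable (fun v => fA q G τ β v * (starRingEnd ℂ) (fB G τ v)) 0 r :=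
    cint (hcA.mul (hcj.comp_continuousOn hcB)) hra
  refine le_trans ?_ (Complex.re_le_norm (fX q G τ β r))
  rw [fX, ← av_re hci1, ← av_mulr]
  apply Real.circleAverage_mono
  · exact (cint ((D.cexp τ).mul (D.cq _)) hra).const_fun_smul
  · exact cint (Complex.continuous_re.comp_continuousOn (hcA.mul (hcj.comp_continuousOn hcB))) hra
  · intro v hv
    have hvb := sphere_sub hra hv
    have h : 0 < ‖q v‖ := norm_pos_iff.2 (D.q_ne hvb)
    rw [fAB, Complex.re_ofReal_mul]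
    have h2 := re_cpow_ge (D.inv_pos hvb) h0 h1.le
    rw [norm_inv, Real.inv_rpow h.le, ← Real.rpow_neg h.le] at h2
    have h3 := mul_le_mul_of_nonneg_left h2 (norm_nonneg (Complex.exp (τ * G v)))
    refine le_trans (le_of_eq ?_) h3
    ring

theorem small_mean (D : Dat μ q G) {τ : ℂ} (hb : ‖τ‖ < 1) {β : ℝ} (h0 : 0 ≤ β) (h1 : β < 1) {r : ℝ} (hr : 0 < r)
    (hr2 : r ≤ 1 / 2) :
    Real.circleAverage (fun v => ‖Complex.exp (τ * G v)‖ * ‖q v‖ ^ (-β)) 0 r ≤ 36 * Kc ‖τ‖ := by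
  have hra : |r| < 1 := by rw [abs_of_pos hr]; linarith
  have hK := Kc_pos ‖τ‖
  have e : 36 * Kc ‖τ‖ = Real.circleAverage (fun _ : ℂ => 36 * Kc ‖τ‖) 0 r := by
    rw [Real.circleAverage_const]
  rw [e]
  apply Real.circleAverage_mono
  · exact cint ((D.cexp τ).mul (D.cq _)) hra
  · exact cint continuousOn_const hra
  · intro v hv
    have hvb := sphere_sub hra hv
    rw [mem_sphere_zero_iff_norm, abs_of_pos hr] at hv
    have h : 0 < ‖q v‖ := norm_pos_iff.2 (D.q_ne hvb)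
    have h2 := D.small hb (v := v) (by rw [hv]; exact hr2)
    have h3 : ‖q v‖ ^ (-β) ≤ 4 := by
      rw [Real.rpow_neg h.le, ← Real.inv_rpow h.le]
      have h4 := D.qinv_le (v := v) (by rw [hv]; linarith)
      have h5 : 2 / (1 - ‖v‖) ≤ 4 := by
        rw [hv, div_le_iff₀ (by linarith)]
        linarith
      calc ‖q v‖⁻¹ ^ β ≤ 4 ^ β := Real.rpow_le_rpow (by positivity) (h4.trans h5) h0
        _ ≤ 4 ^ (1 : ℝ) := Real.rpow_le_rpow_of_exponent_le (by norm_num) h1.le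
        _ = 4 := by norm_num
    calc ‖Complex.exp (τ * G v)‖ * ‖q v‖ ^ (-β) ≤ (9 * Kc ‖τ‖) * 4 := mul_le_mul h2 h3 (by positivity) (by positivity)
      _ = _ := by ring

/-- the integrating factor -/
noncomputable def fY (q G : ℂ → ℂ) (τ : ℂ) (β : ℝ) (r : ℝ) : ℂ :=
  Complex.exp (-((starRingEnd ℂ) τ * (Real.log r : ℂ))) * fX q G τ β r

theorem norm_factor (τ : ℂ) (r : ℝ) :
    ‖Complex.exp (-((starRingEnd ℂ) τ * (Real.log r : ℂ)))‖ = Real.exp (-(τ.re * Real.log r)) := by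
  rw [Complex.norm_exp, Complex.neg_re, Complex.re_mul_ofReal, Complex.conj_re]

theorem fY_deriv (D : Dat μ q G) {τ : ℂ} {β : ℝ} (hβ : τ.re = -β) (hβ0 : 0 < β) {r : ℝ} (hr : 0 < r) (hr1 : r < 1) :
    ∃ e : ℂ, HasDerivAt (fY q G τ β) e r ∧
      ‖e‖ ≤ (‖τ‖ / r) * Real.circleAverage (fun v => ‖Complex.exp (τ * G v)‖ * ‖q v‖ ^ (1 - β)) 0 r := by
  obtain ⟨e, h1, h2⟩ := fX_deriv (β := β) (τ := τ) D hr hr1
  have hr0 : (r : ℂ) ≠ 0 := by exact_mod_cast hr.ne'
  have h3 : HasDerivAt (fun r : ℝ => (Real.log r : ℂ)) ((r⁻¹ : ℝ) : ℂ) r := (Real.hasDerivAt_log hr.ne').ofReal_comp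
  have h4 : HasDerivAt (fun r : ℝ => Complex.exp (-((starRingEnd ℂ) τ * (Real.log r : ℂ))))
      (Complex.exp (-((starRingEnd ℂ) τ * (Real.log r : ℂ))) * (-((starRingEnd ℂ) τ * ((r⁻¹ : ℝ) : ℂ)))) r :=
    (h3.const_mul _).neg.cexp
  refine ⟨Complex.exp (-((starRingEnd ℂ) τ * (Real.log r : ℂ))) * e, ?_, ?_⟩
  · refine (h4.mul h1).congr_deriv ?_
    push_cast
    field_simp
    ring
  · rw [norm_mul, norm_factor]
    have h5 : Real.exp (-(τ.re * Real.log r)) ≤ 1 := by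
      rw [Real.exp_le_one_iff, hβ]
      have := Real.log_neg hr hr1
      nlinarith
    calc Real.exp (-(τ.re * Real.log r)) * ‖e‖ ≤ 1 * ‖e‖ := mul_le_mul_of_nonneg_right h5 (norm_nonneg _)
      _ = ‖e‖ := one_mul _
      _ ≤ _ := h2

/-- **the case of a negative real part** -/
theorem mean_neg {τ : ℂ} (hb : ‖τ‖ < 1) (hσ : τ.re < 0) :
    ∃ C : ℝ, ∀ (μ : ℂ) (q G : ℂ → ℂ), Dat μ q G → ∀ r : ℝ, 0 < r → r < 1 →
      Real.circleAverage (fun v => ‖Complex.exp (τ * G v)‖ * ‖q v‖ ^ τ.re) 0 r ≤ C := by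
  set b := ‖τ‖ with hbd
  obtain ⟨β, hβ⟩ : ∃ β : ℝ, τ.re = -β := ⟨-τ.re, by ring⟩
  have hβ0 : 0 < β := by linarith
  have hβb : β ≤ b := by
    have := (abs_le.1 (Complex.abs_re_le_norm τ)).1
    linarith
  have hβ1 : β < 1 := by linarith
  have hb0 : 0 < b := by linarith
  set κ : ℝ := max (b + β) (1 + β / 2) with hκ
  have hκ1 : 1 < κ := lt_of_lt_of_le (by linarith) (le_max_right _ _)
  have hκ2 : κ < 2 := max_lt (by linarith) (by linarith)
  have hκ3 : b + β ≤ κ := le_max_left _ _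
  have hη1 : κ - β < 1 := by
    rw [sub_lt_iff_lt_add]
    exact max_lt (by linarith) (by linarith)
  set η : ℝ := κ - β with hη
  have hη0 : 0 < η := by linarith
  have hK := Kc_pos b
  have hcos : 0 < Real.cos ((2 - κ) * (Real.pi / 2)) := cos_pos' (by linarith) (by linarith)
  have hcosβ : 0 < Real.cos (β * (Real.pi / 2)) := cos_pos' hβ0.le hβ1
  set C₁ : ℝ := 4 * Kc b / Real.cos ((2 - κ) * (Real.pi / 2)) with hC₁
  have hC₁0 : 0 < C₁ := by positivity
  set C₂ : ℝ := 36 * Kc b + 4 * C₁ / (1 - η) with hC₂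
  have h1η : 0 < 1 - η := by linarith
  have hC₂0 : 0 < C₂ := by positivity
  refine ⟨max (36 * Kc b) (2 * C₂ / Real.cos (β * (Real.pi / 2))), fun μ q G D r hr hr1 => ?_⟩
  rw [hβ]
  rcases le_total r (1 / 2) with hr2 | hr2
  · exact (small_mean D hb hβ0.le hβ1 hr hr2).trans (le_max_left _ _)
  refine le_trans ?_ (le_max_right _ _)
  have hra : |r| < 1 := by rwa [abs_of_pos hr]
  -- the growth bound
  have hY : ‖fY q G τ β r‖ ≤ C₂ := by
    have hpos : ∀ x ∈ Icc (1 / 2 : ℝ) r, 0 < x ∧ x < 1 := fun x hx => ⟨by linarith [hx.1], by linarith [hx.2]⟩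
    have hfd : ∀ x ∈ Icc (1 / 2 : ℝ) r, ∃ e : ℂ, HasDerivAt (fY q G τ β) e x ∧
        ‖e‖ ≤ 4 * C₁ * (1 - x) ^ (-η) := by
      intro x hx
      obtain ⟨hx0, hx1⟩ := hpos x hx
      obtain ⟨e, he1, he2⟩ := fY_deriv D hβ hβ0 hx0 hx1
      refine ⟨e, he1, he2.trans ?_⟩
      have hz := D.zmean hβ hβ0 hβ1 hκ1 hκ2 hκ3 hx0 hx1
      have hbx : b / x ≤ 2 := by
        rw [div_le_iff₀ hx0]
        linarith [hx.1]
      have h1x : 0 < 1 - x := by linarith
      have h2 : (2 / (1 - x)) ^ η ≤ 2 * (1 - x) ^ (-η) := by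
        rw [div_eq_mul_inv, Real.mul_rpow (by norm_num) (by positivity), Real.inv_rpow h1x.le, ← Real.rpow_neg h1x.le]
        apply mul_le_mul_of_nonneg_right _ (by positivity)
        calc (2 : ℝ) ^ η ≤ 2 ^ (1 : ℝ) := Real.rpow_le_rpow_of_exponent_le (by norm_num) hη1.le
          _ = 2 := by norm_num
      have hz0 : 0 ≤ Real.circleAverage (fun v => ‖Complex.exp (τ * G v)‖ * ‖q v‖ ^ (1 - β)) 0 x := by
        apply Real.circleAverage_nonneg_of_nonneg
        intro v _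
        positivity
      calc b / x * Real.circleAverage (fun v => ‖Complex.exp (τ * G v)‖ * ‖q v‖ ^ (1 - β)) 0 x
          ≤ 2 * (C₁ * (2 * (1 - x) ^ (-η))) := by
            apply mul_le_mul hbx _ hz0 (by norm_num)
            exact hz.trans (mul_le_mul_of_nonneg_left h2 hC₁0.le)
        _ = _ := by ring
    choose! f' hf'1 hf'2 using hfd
    have hBd : ∀ x ∈ Icc (1 / 2 : ℝ) r, HasDerivAt (fun x : ℝ => 36 * Kc b + 4 * C₁ * ((1 / 2) ^ (1 - η) - (1 - x) ^ (1 - η)) / (1 - η))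
        (4 * C₁ * (1 - x) ^ (-η)) x := by
      intro x hx
      obtain ⟨hx0, hx1⟩ := hpos x hx
      have h1x : 0 < 1 - x := by linarith
      have hd1 : HasDerivAt (fun x : ℝ => 1 - x) (-1) x := by
        simpa using (hasDerivAt_id x).const_sub 1
      have hd2 := hd1.rpow_const (p := 1 - η) (Or.inl h1x.ne')
      have hd3 := (((hd2.const_sub ((1 / 2 : ℝ) ^ (1 - η))).const_mul (4 * C₁)).div_const (1 - η)).const_add (36 * Kc b)
      refine hd3.congr_deriv ?_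
      have : 1 - η - 1 = -η := by ring
      rw [this]
      field_simp
    have hmain := image_norm_le_of_norm_deriv_right_le_deriv_boundary' (f := fY q G τ β) (a := 1 / 2) (b := r)
      (f' := f')
      (fun x hx => (hf'1 x hx).continuousAt.continuousWithinAt)
      (fun x hx => (hf'1 x ⟨hx.1, hx.2.le⟩).hasDerivWithinAt)
      (B := fun x : ℝ => 36 * Kc b + 4 * C₁ * ((1 / 2) ^ (1 - η) - (1 - x) ^ (1 - η)) / (1 - η))
      (B' := fun x : ℝ => 4 * C₁ * (1 - x) ^ (-η)) ?_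
      (fun x hx => (hBd x hx).continuousAt.continuousWithinAt)
      (fun x hx => (hBd x ⟨hx.1, hx.2.le⟩).hasDerivWithinAt)
      (fun x hx => hf'2 x ⟨hx.1, hx.2.le⟩) (x := r) ⟨hr2, le_refl r⟩
    · refine hmain.trans ?_
      rw [hC₂]
      have h1r : 0 < 1 - r := by linarith
      have h3 : (1 / 2 : ℝ) ^ (1 - η) - (1 - r) ^ (1 - η) ≤ 1 := by
        have h4 : (1 / 2 : ℝ) ^ (1 - η) ≤ 1 := Real.rpow_le_one (by norm_num) (by norm_num) h1η.le
        have h5 : 0 ≤ (1 - r) ^ (1 - η) := by positivity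
        linarith
      have h6 : 4 * C₁ * ((1 / 2 : ℝ) ^ (1 - η) - (1 - r) ^ (1 - η)) / (1 - η) ≤ 4 * C₁ / (1 - η) := by
        apply div_le_div_of_nonneg_right _ h1η.le
        nlinarith
      linarith
    · -- start
      have h12 : |(1 / 2 : ℝ)| < 1 := by rw [abs_of_pos (by norm_num)]; norm_num
      have h3 := (fX_norm (τ := τ) (β := β) D h12).trans (small_mean D hb hβ0.le hβ1 (by norm_num) (le_refl _))
      rw [fY, norm_mul, norm_factor]
      have h5 : Real.exp (-(τ.re * Real.log (1 / 2))) ≤ 1 := by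
        rw [Real.exp_le_one_iff, hβ]
        have := Real.log_neg (x := 1 / 2) (by norm_num) (by norm_num)
        nlinarith
      have h6 : 36 * Kc b + 4 * C₁ * ((1 / 2 : ℝ) ^ (1 - η) - (1 - 1 / 2) ^ (1 - η)) / (1 - η) = 36 * Kc b := by
        have : (1 : ℝ) - 1 / 2 = 1 / 2 := by norm_num
        rw [this, sub_self, mul_zero, zero_div, add_zero]
      show _ ≤ 36 * Kc b + 4 * C₁ * ((1 / 2 : ℝ) ^ (1 - η) - (1 - 1 / 2) ^ (1 - η)) / (1 - η)
      rw [h6]
      calc Real.exp (-(τ.re * Real.log (1 / 2))) * ‖fX q G τ β (1 / 2)‖ ≤ 1 * ‖fX q G τ β (1 / 2)‖ :=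
            mul_le_mul_of_nonneg_right h5 (norm_nonneg _)
        _ = ‖fX q G τ β (1 / 2)‖ := one_mul _
        _ ≤ _ := h3
  have hX : ‖fX q G τ β r‖ ≤ 2 * C₂ := by
    have h1 : ‖fY q G τ β r‖ = Real.exp (-(τ.re * Real.log r)) * ‖fX q G τ β r‖ := by
      rw [fY, norm_mul, norm_factor]
    have h2 : 1 / 2 ≤ Real.exp (-(τ.re * Real.log r)) := by
      rw [hβ, neg_mul, neg_neg, ← Real.log_le_iff_le_exp (by norm_num)]
      have h3 : Real.log (1 / 2) ≤ Real.log r := Real.log_le_log (by norm_num) hr2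
      have h4 := Real.log_neg (x := 1 / 2) (by norm_num) (by norm_num)
      have h5 := Real.log_neg hr hr1
      nlinarith
    have h3 := mul_le_mul_of_nonneg_right h2 (norm_nonneg (fX q G τ β r))
    linarith
  exact (fX_re D hβ0.le hβ1 hra).trans (div_le_div_of_nonneg_right hX hcosβ.le)

/-- **the mean bound** -/
theorem mean_all {τ : ℂ} (hb : ‖τ‖ < 1) :
    ∃ C : ℝ, ∀ (μ : ℂ) (q G : ℂ → ℂ), Dat μ q G → ∀ r : ℝ, 0 < r → r < 1 →
      Real.circleAverage (fun v => ‖Complex.exp (τ * G v)‖ * ‖q v‖ ^ τ.re) 0 r ≤ C := by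
  rcases le_or_gt 0 τ.re with h | h
  · exact ⟨_, fun μ q G D r hr hr1 => D.mean_nonneg hb h hr hr1⟩
  · exact mean_neg hb h

end

end Pool.Agent.Z55M
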