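import Mathlib
import Pool.Agent.Z55M.Neg2
import Pool.Agent.Q90.SM.Ext

/-! From the potentials to `log ψ'`. -/

set_option autoImplicit false
open Complex Metric Set Filter Topology MeasureTheory

namespace Pool.Agent.Z55M

open Pool.Agent.TH325.SI (mn em la)

/-- `H = log ψ'` comes from a spirallike function -/
def Spi (H : ℂ → ℂ) : Prop :=
  ∃ (μ : ℂ) (q G : ℂ → ℂ), Dat μ q G ∧ ∀ v ∈ ball (0 : ℂ) 1, H v = G v + Complex.log (q v) - Complex.log μ

theorem exp_bound {μ : ℂ} {q G : ℂ → ℂ} (D : Dat μ q G) {H : ℂ → ℂ} {v : ℂ} (hv : v ∈ ball (0 : ℂ) 1)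
    (hH : H v = G v + Complex.log (q v) - Complex.log μ) (τ : ℂ) :
    ‖Complex.exp (τ * H v)‖ ≤ Real.exp (Real.pi * ‖τ‖) * (‖Complex.exp (τ * G v)‖ * ‖q v‖ ^ τ.re) := by
  have hq : 0 < ‖q v‖ := norm_pos_iff.2 (D.q_ne hv)
  have hpi := Real.pi_pos
  have e1 : (τ * H v).re = (τ * G v).re + τ.re * Real.log ‖q v‖ - τ.im * (q v).arg + τ.im * μ.arg := by
    rw [hH]
    simp only [Complex.mul_re, Complex.add_re, Complex.sub_re, Complex.add_im, Complex.sub_im, Complex.log_re,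
      Complex.log_im, D.mu, Real.log_one]
    ring
  rw [Complex.norm_exp, Complex.norm_exp, Real.rpow_def_of_pos hq, ← Real.exp_add, ← Real.exp_add, Real.exp_le_exp, e1]
  have h1 : |(q v).arg| ≤ Real.pi / 2 := (Complex.abs_arg_lt_pi_div_two_iff.2 (Or.inl (D.pos v hv))).le
  have h2 : |μ.arg| ≤ Real.pi / 2 := (Complex.abs_arg_lt_pi_div_two_iff.2 (Or.inl D.mre)).le
  have h3 := Complex.abs_im_le_norm τ
  have h4 : -(τ.im * (q v).arg) ≤ ‖τ‖ * (Real.pi / 2) := by
    calc -(τ.im * (q v).arg) ≤ |τ.im * (q v).arg| := neg_le_abs _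
      _ = |τ.im| * |(q v).arg| := abs_mul _ _
      _ ≤ _ := mul_le_mul h3 h1 (abs_nonneg _) (norm_nonneg _)
  have h5 : τ.im * μ.arg ≤ ‖τ‖ * (Real.pi / 2) := by
    calc τ.im * μ.arg ≤ |τ.im * μ.arg| := le_abs_self _
      _ = |τ.im| * |μ.arg| := abs_mul _ _
      _ ≤ _ := mul_le_mul h3 h2 (abs_nonneg _) (norm_nonneg _)
  linarith

theorem Spi.diff {H : ℂ → ℂ} (hS : Spi H) : DifferentiableOn ℂ H (ball 0 1) := by
  obtain ⟨μ, q, G, D, hH⟩ := hS
  have h1 : DifferentiableOn ℂ (fun v => G v + Complex.log (q v) - Complex.log μ) (ball 0 1) :=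
    (D.dG.add (D.dq.clog fun v hv => Or.inl (D.pos v hv))).sub_const _
  exact h1.congr hH

/-- **complex integral means** -/
theorem mean_H {τ : ℂ} (hb : ‖τ‖ < 1) : ∃ C : ℝ, ∀ H : ℂ → ℂ, Spi H → ∀ r : ℝ, 0 < r → r < 1 →
    Real.circleAverage (fun v => ‖Complex.exp (τ * H v)‖) 0 r ≤ C := by
  obtain ⟨C, hC⟩ := mean_all hb
  refine ⟨Real.exp (Real.pi * ‖τ‖) * C, fun H hS r hr hr1 => ?_⟩
  have hra : |r| < 1 := by rwa [abs_of_pos hr]
  have hd := hS.diff
  obtain ⟨μ, q, G, D, hH⟩ := hS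
  refine le_trans ?_ (mul_le_mul_of_nonneg_left (hC μ q G D r hr hr1) (Real.exp_pos _).le)
  rw [← av_mulr]
  apply Real.circleAverage_mono
  · exact cint (Complex.continuous_exp.comp_continuousOn (continuousOn_const.mul hd.continuousOn)).norm hra
  · exact (cint ((D.cexp τ).mul (D.cq _)) hra).const_fun_smul
  · intro v hv
    have hvb := sphere_sub hra hv
    exact exp_bound D hvb (hH v hvb) τ

/-- finitely many directions -/
theorem directions {a : ℝ} (ha0 : 0 < a) (ha : a < 1) : ∃ T : Finset ℂ, (∀ τ ∈ T, ‖τ‖ < 1) ∧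
    ∀ w : ℂ, Real.exp (a * ‖w‖) ≤ ∑ τ ∈ T, ‖Complex.exp (τ * w)‖ := by
  set ρ : ℝ := (1 + a) / 2 with hρ
  have hρ1 : ρ < 1 := by rw [hρ]; linarith
  have hρa : a < ρ := by rw [hρ]; linarith
  have hρ0 : 0 < ρ := ha0.trans hρa
  obtain ⟨T, hT1, hT2⟩ := (isCompact_sphere (0 : ℂ) 1).elim_nhds_subcover
    (fun u => {x : ℂ | a < ρ * ((starRingEnd ℂ) u * x).re}) (by
      intro u hu
      apply (isOpen_lt continuous_const (by fun_prop)).mem_nhds
      rw [mem_sphere_zero_iff_norm] at hu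
      have : (starRingEnd ℂ) u * u = 1 := by
        rw [mul_comm, Complex.mul_conj, Complex.normSq_eq_norm_sq, hu]
        norm_num
      show a < ρ * ((starRingEnd ℂ) u * u).re
      rw [this, Complex.one_re, mul_one]
      exact hρa)
  classical
  refine ⟨insert 0 (T.image fun u => (ρ : ℂ) * (starRingEnd ℂ) u), ?_, ?_⟩
  · intro τ hτ
    rw [Finset.mem_insert, Finset.mem_image] at hτ
    rcases hτ with rfl | ⟨u, hu, rfl⟩
    · simp
    · have := hT1 u hu
      rw [mem_sphere_zero_iff_norm] at this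
      rw [norm_mul, RCLike.norm_conj, this, Complex.norm_real, Real.norm_of_nonneg hρ0.le, mul_one]
      exact hρ1
  · intro w
    have hnn : ∀ τ ∈ insert 0 (T.image fun u => (ρ : ℂ) * (starRingEnd ℂ) u), 0 ≤ ‖Complex.exp (τ * w)‖ :=
      fun τ _ => norm_nonneg _
    by_cases hw : w = 0
    · subst hw
      refine le_trans ?_ (Finset.single_le_sum hnn (Finset.mem_insert_self 0 _))
      simp
    · have hn : 0 < ‖w‖ := norm_pos_iff.2 hw
      have h1 : w / ‖w‖ ∈ sphere (0 : ℂ) 1 := by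
        rw [mem_sphere_zero_iff_norm, norm_div, Complex.norm_real, norm_norm, div_self hn.ne']
      have h2 := hT2 h1
      rw [mem_iUnion₂] at h2
      obtain ⟨u, hu, h3⟩ := h2
      have h3' : a < ρ * ((starRingEnd ℂ) u * (w / ‖w‖)).re := h3
      have h4 : (starRingEnd ℂ) u * (w / ‖w‖) = ((starRingEnd ℂ) u * w) / (‖w‖ : ℝ) := by
        rw [mul_div_assoc]
      rw [h4, Complex.div_ofReal_re] at h3'
      have h5 : a * ‖w‖ ≤ ((ρ : ℂ) * (starRingEnd ℂ) u * w).re := by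
        rw [mul_assoc, Complex.re_ofReal_mul]
        rw [← mul_div_assoc, lt_div_iff₀ hn] at h3'
        exact h3'.le
      refine le_trans ?_ (Finset.single_le_sum hnn
        (Finset.mem_insert_of_mem (Finset.mem_image_of_mem (fun u => (ρ : ℂ) * (starRingEnd ℂ) u) hu)))
      rw [Complex.norm_exp, Real.exp_le_exp]
      exact h5

/-- **the exponential square bound** -/
theorem em_bound {a : ℝ} (ha0 : 0 < a) (ha : a < 1) : ∃ C : ℝ, ∀ H : ℂ → ℂ, Spi H →
    (∀ v ∈ ball (0 : ℂ) 1, ‖H v‖ ≤ -Real.log (1 - ‖v‖ ^ 2)) → ∀ r : ℝ, 0 < r → r < 1 → em H (a / la r) r ≤ C := by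
  obtain ⟨T, hT1, hT2⟩ := directions ha0 ha
  have h1 : ∀ τ ∈ T, ∃ C : ℝ, ∀ H : ℂ → ℂ, Spi H → ∀ r : ℝ, 0 < r → r < 1 →
    Real.circleAverage (fun v => ‖Complex.exp (τ * H v)‖) 0 r ≤ C := fun τ hτ => mean_H (hT1 τ hτ)
  choose! Cf hCf using h1
  refine ⟨∑ τ ∈ T, Cf τ, fun H hS hG r hr hr1 => ?_⟩
  have hra : |r| < 1 := by rwa [abs_of_pos hr]
  have hd := hS.diff
  have hci : ∀ τ : ℂ, ContinuousOn (fun v => ‖Complex.exp (τ * H v)‖) (ball 0 1) := fun τ =>
    (Complex.continuous_exp.comp_continuousOn (continuousOn_const.mul hd.continuousOn)).norm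
  have hla : 0 < la r := by
    unfold la
    have : Real.log (1 - r ^ 2) < 0 := Real.log_neg (by nlinarith) (by nlinarith)
    linarith
  have e1 : em H (a / la r) r = Real.circleAverage (fun v => Real.exp (a / la r * ‖H v‖ ^ 2)) 0 r := by
    unfold Pool.Agent.TH325.SI.em Real.circleAverage
    rfl
  have e2 : ∑ τ ∈ T, Real.circleAverage (fun v => ‖Complex.exp (τ * H v)‖) 0 r =
      Real.circleAverage (fun v => ∑ τ ∈ T, ‖Complex.exp (τ * H v)‖) 0 r := by
    unfold Real.circleAverage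
    rw [intervalIntegral.integral_finsetSum, Finset.smul_sum]
    intro τ _
    exact (cint (hci τ) hra)
  rw [e1]
  refine le_trans ?_ (Finset.sum_le_sum fun τ hτ => hCf τ hτ H hS r hr hr1)
  rw [e2]
  apply Real.circleAverage_mono
  · exact cint (Real.continuous_exp.comp_continuousOn (continuousOn_const.mul (hd.continuousOn.norm.pow 2))) hra
  · exact cint (continuousOn_finsetSum _ fun τ _ => hci τ) hra
  · intro v hv
    have hvb := sphere_sub hra hv
    have h2 := hG v hvb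
    rw [mem_sphere_zero_iff_norm, abs_of_pos hr] at hv
    rw [hv] at h2
    have h3 : ‖H v‖ ≤ la r := h2
    refine le_trans ?_ (hT2 (H v))
    rw [Real.exp_le_exp, div_mul_eq_mul_div, div_le_iff₀ hla]
    have h4 := norm_nonneg (H v)
    nlinarith [mul_nonneg ha0.le h4, mul_le_mul_of_nonneg_left h3 (mul_nonneg ha0.le h4)]

end Pool.Agent.Z55M
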