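import Mathlib
import Pool.Agent.Z55M.Fin

/-! The geometry of spirallike sets. -/

set_option autoImplicit false
open Complex Metric Set Filter Topology MeasureTheory

namespace Pool.Agent.Z55M

open Pool.Agent.W677.Mar (Sg)

/-- the inverse function is holomorphic -/
theorem inv_holo {U : Set ℂ} (hU : IsOpen U) {F : ℂ → ℂ} (hF : DifferentiableOn ℂ F U) (hi : InjOn F U)
    (hne : ∀ v ∈ U, deriv F v ≠ 0) {v : ℂ} (hv : v ∈ U) :
    HasDerivAt (Function.invFunOn F U) (deriv F v)⁻¹ (F v) := by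
  have h1 : HasStrictDerivAt F (deriv F v) v := (hF.analyticAt (hU.mem_nhds hv)).hasStrictDerivAt
  exact (h1.to_local_left_inverse (hne v hv) (by
    filter_upwards [hU.mem_nhds hv] with x hx
    exact hi.leftInvOn_invFunOn hx)).hasDerivAt

theorem nonpos_of_le {f : ℝ → ℝ} {f' : ℝ} (h : HasDerivAt f f' 0) (hle : ∀ t : ℝ, 0 ≤ t → f t ≤ f 0) : f' ≤ 0 := by
  have h1 := (hasDerivAt_iff_tendsto_slope.1 h).mono_left (nhdsWithin_mono (0:ℝ) (fun x (hx : x ∈ Ioi (0:ℝ)) => ne_of_gt hx))
  apply le_of_tendsto h1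
  filter_upwards [self_mem_nhdsWithin] with t ht
  have ht0 : 0 < t := ht
  rw [slope_def_field, sub_zero]
  exact div_nonpos_of_nonpos_of_nonneg (by linarith [hle t ht0.le]) ht0.le

/-- the minimum principle -/
theorem re_pos {p : ℂ → ℂ} (hp : DifferentiableOn ℂ p (ball 0 1)) (h0 : 0 < (p 0).re)
    (hn : ∀ v ∈ ball (0 : ℂ) 1, 0 ≤ (p v).re) : ∀ v ∈ ball (0 : ℂ) 1, 0 < (p v).re := by
  intro v hv
  rcases (hn v hv).lt_or_eq with h | h
  · exact h
  exfalso
  have hd : DifferentiableOn ℂ (fun v => Complex.exp (-p v)) (ball 0 1) := hp.neg.cexp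
  have hmax : IsMaxOn (norm ∘ fun v => Complex.exp (-p v)) (ball 0 1) v := by
    intro x hx
    show ‖Complex.exp (-p x)‖ ≤ ‖Complex.exp (-p v)‖
    rw [Complex.norm_exp, Complex.norm_exp, Real.exp_le_exp, Complex.neg_re, Complex.neg_re, ← h]
    linarith [hn x hx]
  have h2 := Complex.norm_eqOn_of_isPreconnected_of_isMaxOn (convex_ball (0 : ℂ) 1).isPreconnected isOpen_ball hd hv
    hmax (mem_ball_self one_pos)
  simp only [Function.comp_apply, Function.const_apply] at h2
  rw [Complex.norm_exp, Complex.norm_exp, Real.exp_eq_exp, Complex.neg_re, Complex.neg_re, ← h] at h2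
  linarith

section

variable {Y H : ℂ → ℂ}

theorem spi_of (S : Sg Y H) {c l : ℂ} (hl : 0 < l.re) (hc : ∀ v ∈ ball (0 : ℂ) 1, v ≠ 0 → Y v / v ≠ c)
    (hinv : ∀ v ∈ ball (0 : ℂ) 1, v ≠ 0 → ∀ t : ℝ, 0 ≤ t → ∃ v' ∈ ball (0 : ℂ) 1, v' ≠ 0 ∧
      Y v' / v' - c = Complex.exp (t * l) * (Y v / v - c)) : Spi H := by
  have h0b : (0 : ℂ) ∈ ball (0 : ℂ) 1 := mem_ball_self one_pos
  set g : ℂ → ℂ := fun v => Y v - c * v with hg
  have hgd : DifferentiableOn ℂ g (ball 0 1) := S.G.diff.sub (differentiableOn_id.const_mul c)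
  have hg0 : g 0 = 1 := by simp [hg, S.G.one]
  have hgne : ∀ v ∈ ball (0 : ℂ) 1, g v ≠ 0 := by
    intro v hv h
    by_cases hv0 : v = 0
    · rw [hv0, hg0] at h
      exact one_ne_zero h
    · apply hc v hv hv0
      rw [div_eq_iff hv0]
      exact sub_eq_zero.1 h
  have hgdiv : ∀ v : ℂ, v ≠ 0 → g v / v = Y v / v - c := by
    intro v hv
    simp only [hg]
    field_simp
  have hgder : ∀ v ∈ ball (0 : ℂ) 1, HasDerivAt g (deriv Y v - c) v := by
    intro v hv
    have h1 : HasDerivAt Y (deriv Y v) v := (S.G.diff.differentiableAt (isOpen_ball.mem_nhds hv)).hasDerivAt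
    exact (h1.sub ((hasDerivAt_id v).const_mul c)).congr_deriv (by simp)
  have hexp : ∀ v ∈ ball (0 : ℂ) 1, Complex.exp (H v) = g v - v * (deriv Y v - c) := by
    intro v hv
    rw [S.eq v hv]
    simp only [hg]
    ring
  set F : ℂ → ℂ := fun v => v / g v with hF
  have hFder : ∀ v ∈ ball (0 : ℂ) 1, HasDerivAt F (Complex.exp (H v) / g v ^ 2) v := by
    intro v hv
    refine ((hasDerivAt_id v).div (hgder v hv) (hgne v hv)).congr_deriv ?_
    rw [hexp v hv]
    simp only [id]
    ring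
  have hFd : DifferentiableOn ℂ F (ball 0 1) := fun v hv => (hFder v hv).differentiableAt.differentiableWithinAt
  have hF0 : F 0 = 0 := by simp [hF]
  have hFi : InjOn F (ball 0 1) := by
    intro v hv w hw hvw
    simp only [hF] at hvw
    have hgv := hgne v hv
    have hgw := hgne w hw
    by_cases hv0 : v = 0
    · rw [hv0, zero_div, eq_comm, div_eq_zero_iff] at hvw
      rw [hv0]
      rcases hvw with h | h
      · exact h.symm
      · exact absurd h hgw
    · by_cases hw0 : w = 0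
      · rw [hw0, zero_div, div_eq_zero_iff] at hvw
        rcases hvw with h | h
        · exact absurd h hv0
        · exact absurd h hgv
      · apply S.G.inj ⟨hv, hv0⟩ ⟨hw, hw0⟩
        have h1 : g v / v = g w / w := by
          rw [div_eq_div_iff hgv hgw] at hvw
          rw [div_eq_div_iff hv0 hw0]
          linear_combination -hvw
        rw [hgdiv v hv0, hgdiv w hw0] at h1
        exact sub_left_inj.1 h1
  have hFne : ∀ v ∈ ball (0 : ℂ) 1, deriv F v ≠ 0 := by
    intro v hv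
    rw [(hFder v hv).deriv]
    exact div_ne_zero (Complex.exp_ne_zero _) (pow_ne_zero 2 (hgne v hv))
  set φ : ℂ → ℂ := Function.invFunOn F (ball 0 1) with hφ
  have hφF : ∀ v ∈ ball (0 : ℂ) 1, φ (F v) = v := fun v hv => hFi.leftInvOn_invFunOn hv
  have hφd : ∀ v ∈ ball (0 : ℂ) 1, HasDerivAt φ (deriv F v)⁻¹ (F v) := fun v hv =>
    inv_holo isOpen_ball hFd hFi hFne hv
  have hsp : ∀ t : ℝ, 0 ≤ t → ∀ v ∈ ball (0 : ℂ) 1, ∃ v' ∈ ball (0 : ℂ) 1, F v' = Complex.exp (-(t * l)) * F v := by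
    intro t ht v hv
    by_cases hv0 : v = 0
    · refine ⟨0, h0b, ?_⟩
      rw [hv0, hF0, mul_zero]
    · obtain ⟨v', hv', hv'0, he⟩ := hinv v hv hv0 t ht
      refine ⟨v', hv', ?_⟩
      rw [← hgdiv v hv0, ← hgdiv v' hv'0] at he
      have h1 : F v' = (g v' / v')⁻¹ := by rw [inv_div]
      have h2 : F v = (g v / v)⁻¹ := by rw [inv_div]
      rw [h1, h2, he, mul_inv, Complex.exp_neg]
  -- Schwarz
  have hschw : ∀ t : ℝ, 0 ≤ t → ∀ v ∈ ball (0 : ℂ) 1, ‖φ (Complex.exp (-(t * l)) * F v)‖ ≤ ‖v‖ := by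
    intro t ht v hv
    have hd : DifferentiableOn ℂ (fun v => φ (Complex.exp (-(t * l)) * F v)) (ball 0 1) := by
      intro x hx
      obtain ⟨x', hx', he⟩ := hsp t ht x hx
      have h1 := hφd x' hx'
      rw [he] at h1
      exact (h1.comp x ((hFder x hx).const_mul _)).differentiableAt.differentiableWithinAt
    have hm : MapsTo (fun v => φ (Complex.exp (-(t * l)) * F v)) (ball 0 1) (ball 0 1) := by
      intro x hx
      obtain ⟨x', hx', he⟩ := hsp t ht x hx
      show φ (Complex.exp (-(t * l)) * F x) ∈ ball (0 : ℂ) 1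
      rw [← he, hφF x' hx']
      exact hx'
    apply Complex.norm_le_norm_of_mapsTo_ball hd (hm.mono_right ball_subset_closedBall) _ (mem_ball_zero_iff.1 hv)
    show φ (Complex.exp (-(t * l)) * F 0) = 0
    have := hφF 0 h0b
    rw [hF0] at this
    rw [hF0, mul_zero, this]
  -- the derivative
  have hre : ∀ v ∈ ball (0 : ℂ) 1, v ≠ 0 → 0 ≤ (l * g v * Complex.exp (-H v)).re := by
    intro v hv hv0
    have h1 : HasDerivAt (fun t : ℂ => Complex.exp (-(t * l)) * F v) (-l * F v) ((0 : ℝ) : ℂ) := by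
      have h2 : HasDerivAt (fun t : ℂ => -(t * l)) (-l) ((0 : ℝ) : ℂ) := by
        exact (((hasDerivAt_id (((0 : ℝ) : ℂ))).mul_const l).neg).congr_deriv (by simp)
      refine (h2.cexp.mul_const (F v)).congr_deriv ?_
      simp
    have h3 : HasDerivAt (fun t : ℂ => φ (Complex.exp (-(t * l)) * F v)) ((deriv F v)⁻¹ * (-l * F v)) ((0 : ℝ) : ℂ) := by
      have h0 : Complex.exp (-((((0 : ℝ) : ℂ)) * l)) * F v = F v := by simp
      have h1' : HasDerivAt φ (deriv F v)⁻¹ (Complex.exp (-((((0 : ℝ) : ℂ)) * l)) * F v) := by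
        rw [h0]
        exact hφd v hv
      exact HasDerivAt.comp (h₂ := φ) (h := fun t : ℂ => Complex.exp (-(t * l)) * F v) ((0 : ℝ) : ℂ) h1' h1
    have h4 : HasDerivAt (fun t : ℝ => φ (Complex.exp (-(t * l)) * F v)) ((deriv F v)⁻¹ * (-l * F v)) 0 := h3.comp_ofReal
    have h5 : HasDerivAt (fun t : ℝ => ((starRingEnd ℂ) v * φ (Complex.exp (-(t * l)) * F v)).re)
        ((starRingEnd ℂ) v * ((deriv F v)⁻¹ * (-l * F v))).re 0 := by
      have h6 := h4.const_mul ((starRingEnd ℂ) v)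
      exact Complex.reCLM.hasFDerivAt.comp_hasDerivAt (0 : ℝ) h6
    have h7 := nonpos_of_le h5 (by
      intro t ht
      have h8 := hschw t ht v hv
      have h9 : ((starRingEnd ℂ) v * φ (Complex.exp (-(((0:ℝ):ℂ) * l)) * F v)).re = ‖v‖ ^ 2 := by
        simp only [Complex.ofReal_zero, zero_mul, neg_zero, Complex.exp_zero, one_mul]
        rw [hφF v hv, mul_comm, Complex.mul_conj, Complex.ofReal_re, Complex.normSq_eq_norm_sq]
      rw [h9]
      refine (Complex.re_le_norm _).trans ?_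
      rw [norm_mul, RCLike.norm_conj, sq]
      exact mul_le_mul_of_nonneg_left h8 (norm_nonneg _))
    have h10 : (starRingEnd ℂ) v * ((deriv F v)⁻¹ * (-l * F v)) = ((-(‖v‖ ^ 2) : ℝ) : ℂ) * (l * g v * Complex.exp (-H v)) := by
      rw [(hFder v hv).deriv]
      have hgv := hgne v hv
      have he := Complex.exp_ne_zero (H v)
      have h11 : (starRingEnd ℂ) v * v = ((‖v‖ ^ 2 : ℝ) : ℂ) := by
        rw [mul_comm, Complex.mul_conj, Complex.normSq_eq_norm_sq]
      rw [Complex.exp_neg]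
      simp only [hF]
      rw [Complex.ofReal_neg, ← h11]
      field_simp
    rw [h10, Complex.re_ofReal_mul] at h7
    have h12 : 0 < ‖v‖ ^ 2 := by positivity
    by_contra hcon
    push Not at hcon
    nlinarith
  have hHd := S.dH
  have hH0 := S.H0
  set p : ℂ → ℂ := fun v => l * g v * Complex.exp (-H v) with hp
  have hpd : DifferentiableOn ℂ p (ball 0 1) := (hgd.const_mul l).mul hHd.neg.cexp
  have hp0 : p 0 = l := by simp [hp, hg0, hH0]
  have hppos := re_pos hpd (by rw [hp0]; exact hl) (fun v hv => by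
    by_cases hv0 : v = 0
    · rw [hv0, hp0]; exact hl.le
    · exact hre v hv hv0)
  have hl0 : l ≠ 0 := by
    rintro rfl
    simp at hl
  have hln : 0 < ‖l‖ := norm_pos_iff.2 hl0
  set μ : ℂ := (‖l‖ : ℂ) / l with hμ
  have hμn : ‖μ‖ = 1 := by
    rw [hμ, norm_div, Complex.norm_real, norm_norm, div_self hln.ne']
  have hμμ : (starRingEnd ℂ) μ * μ = 1 := by
    rw [mul_comm, Complex.mul_conj, Complex.normSq_eq_norm_sq, hμn]
    norm_num
  set q : ℂ → ℂ := fun v => μ * Complex.exp (H v) / g v with hq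
  have hqp : ∀ v ∈ ball (0 : ℂ) 1, q v = (‖l‖ : ℂ) * (p v)⁻¹ := by
    intro v hv
    have hgv := hgne v hv
    have he := Complex.exp_ne_zero (H v)
    simp only [hq, hp, hμ]
    rw [Complex.exp_neg]
    field_simp
  have hqpos : ∀ v ∈ ball (0 : ℂ) 1, 0 < (q v).re := by
    intro v hv
    rw [hqp v hv, Complex.re_ofReal_mul, Complex.inv_re]
    have h1 := hppos v hv
    have h2 : p v ≠ 0 := by
      intro h
      rw [h] at h1
      simp at h1
    exact mul_pos hln (div_pos h1 (Complex.normSq_pos.2 h2))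
  have hqd : DifferentiableOn ℂ q (ball 0 1) := (hHd.cexp.const_mul μ).div hgd hgne
  have hqne : ∀ v ∈ ball (0 : ℂ) 1, q v ≠ 0 := by
    intro v hv h
    have := hqpos v hv
    rw [h] at this
    simp at this
  have hq0 : q 0 = μ := by simp [hq, hg0, hH0]
  set G : ℂ → ℂ := fun v => H v - Complex.log (q v) + Complex.log μ with hG
  refine ⟨μ, q, G, ⟨hqd, ?_, ?_, hqpos, hq0, hμn, ?_⟩, ?_⟩
  · exact (hHd.sub (hqd.clog fun v hv => Or.inl (hqpos v hv))).add_const _
  · simp [hG, hq0, hH0]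
  · intro v hv
    have hgv := hgne v hv
    have he := Complex.exp_ne_zero (H v)
    have hqv := hqne v hv
    have hHder : HasDerivAt H (deriv H v) v := (hHd.differentiableAt (isOpen_ball.mem_nhds hv)).hasDerivAt
    have h1 : HasDerivAt q ((μ * (Complex.exp (H v) * deriv H v) * g v - μ * Complex.exp (H v) * (deriv Y v - c)) / g v ^ 2) v :=
      (hHder.cexp.const_mul μ).div (hgder v hv) hgv
    have h2 : HasDerivAt G (deriv H v - ((μ * (Complex.exp (H v) * deriv H v) * g v -
        μ * Complex.exp (H v) * (deriv Y v - c)) / g v ^ 2) / q v) v :=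
      (hHder.sub (h1.clog (Or.inl (hqpos v hv)))).add_const _
    rw [h2.deriv]
    have h3 := hexp v hv
    have hμ0 : μ ≠ 0 := by
      intro h
      rw [h, norm_zero] at hμn
      exact zero_ne_one hμn
    have h4 : deriv H v - ((μ * (Complex.exp (H v) * deriv H v) * g v -
        μ * Complex.exp (H v) * (deriv Y v - c)) / g v ^ 2) / q v = (deriv Y v - c) / g v := by
      simp only [hq]
      field_simp
      ring
    rw [h4]
    have h5 : (starRingEnd ℂ) μ * q v = Complex.exp (H v) / g v := by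
      simp only [hq]
      rw [← mul_div_assoc, ← mul_assoc, hμμ, one_mul]
    rw [h5, h3]
    field_simp
    ring
  · intro v hv
    simp only [hG]
    ring

end

end Pool.Agent.Z55M
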